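import Pool.Agent.R860.CG.Core

/-!
# Rotation and averaging over signs
-/

set_option autoImplicit false

namespace Pool.Agent.R860.CG

open MeasureTheory ProbabilityTheory Set Matrix
open scoped ENNReal
open Pool.Agent.R979.SV

variable {ι : Type} [Fintype ι] [DecidableEq ι]

/-- Conjugation by the orthogonal matrix of a basis. -/
noncomputable def cj (b : OrthonormalBasis ι ℝ (EuclideanSpace ℝ ι)) (X : ι → ι → ℝ) :
    ι → ι → ℝ := fun i j => ∑ p, (∑ r, X p r * (b r) j) * (b p) i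

theorem cj_meas (b : OrthonormalBasis ι ℝ (EuclideanSpace ℝ ι)) : Measurable (cj b) := by
  unfold cj
  fun_prop

theorem cj_int (b : OrthonormalBasis ι ℝ (EuclideanSpace ℝ ι)) (F : (ι → ι → ℝ) → ℝ≥0∞)
    (hF : Measurable F) : ∫⁻ G, F G ∂(mu2 ι) = ∫⁻ X, F (cj b X) ∂(mu2 ι) := by
  have hT : Measurable fun (X : ι → ι → ℝ) (i j : ι) => ∑ p, X p j * (b p) i := by fun_prop
  have htr : Measurable fun (X : ι → ι → ℝ) (i j : ι) => X j i := by fun_prop
  rw [rot2 b F hF]
  set F1 : (ι → ι → ℝ) → ℝ≥0∞ := fun X => F (fun i j => ∑ p, X p j * (b p) i) with hF1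
  have hm1 : Measurable F1 := hF.comp hT
  rw [transp F1 hm1]
  set F2 : (ι → ι → ℝ) → ℝ≥0∞ := fun X => F1 (fun i j => X j i) with hF2
  have hm2 : Measurable F2 := hm1.comp htr
  rw [rot2 b F2 hm2]
  have hm3 : Measurable fun X : ι → ι → ℝ => F2 (fun i j => ∑ p, X p j * (b p) i) := hm2.comp hT
  rw [transp _ hm3]
  apply lintegral_congr
  intro X
  rfl

theorem basis_orth (b : OrthonormalBasis ι ℝ (EuclideanSpace ℝ ι)) (p r : ι) :
    ∑ i, (b p) i * (b r) i = if p = r then 1 else 0 := by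
  have h1 := b.inner_eq_ite r p
  rw [PiLp.inner_apply] at h1
  have h2 : (∑ i, (b p) i * (b r) i) = ∑ i, inner ℝ ((b r) i) ((b p) i) := by
    apply Finset.sum_congr rfl
    intro i _
    simp
  rw [h2, h1]
  by_cases h : p = r
  · simp [h]
  · simp [h, Ne.symm h]

theorem cj_EV (b : OrthonormalBasis ι ℝ (EuclideanSpace ℝ ι)) (k : ι) (v : ι → ℝ)
    (hb : (b k : ι → ℝ) = v) (A : ι → ι → ℝ) (w : ℂ) (t c : ℝ) (X : ι → ι → ℝ)
    (hX : cj b X ∈ EV A w t c v) :
    X ∈ EV (fun p r => ∑ i, ∑ j, (b p) i * A i j * (b r) j) w t c (Pi.single k 1) := by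
  -- the orthogonal matrix
  set O : Matrix ι ι ℝ := Matrix.of fun i p => (b p) i with hO
  have hOO : Oᵀ * O = 1 := by
    ext p r
    rw [Matrix.mul_apply]
    simp only [Matrix.transpose_apply, hO, Matrix.of_apply]
    rw [basis_orth, Matrix.one_apply]
  have hOO' : O * Oᵀ = 1 := mul_eq_one_comm.mp hOO
  set C : Matrix ι ι ℂ := O.map (fun x : ℝ => (x : ℂ)) with hC
  have hmapmul : ∀ P Q : Matrix ι ι ℝ, (P * Q).map (fun x : ℝ => (x : ℂ)) =
      P.map (fun x : ℝ => (x : ℂ)) * Q.map (fun x : ℝ => (x : ℂ)) := by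
    intro P Q
    exact Matrix.map_mul (f := Complex.ofRealHom)
  have hmap1 : (1 : Matrix ι ι ℝ).map (fun x : ℝ => (x : ℂ)) = 1 := by
    apply Matrix.map_one <;> simp
  have hCC : Cᵀ * C = 1 := by
    rw [hC, ← Matrix.transpose_map, ← hmapmul, hOO, hmap1]
  have hCC' : C * Cᵀ = 1 := by
    rw [hC, ← Matrix.transpose_map, ← hmapmul, hOO', hmap1]
  have hct : ∀ (M : ι → ι → ℝ) (u : ι → ℂ), ct w M u =
      w • u - ((Matrix.of M).map (fun x : ℝ => (x : ℂ)))ᵀ *ᵥ u := by
    intro M u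
    funext i
    simp [ct, Matrix.mulVec, dotProduct]
  obtain ⟨u, hu1, hu2, hu3⟩ := hX
  have hnorm : ∀ z : ι → ℂ, ∑ i, ‖(Cᵀ *ᵥ z) i‖ ^ 2 = ∑ i, ‖z i‖ ^ 2 := by
    intro z
    have hn : ∀ z : ι → ℂ, ((∑ i, ‖z i‖ ^ 2 : ℝ) : ℂ) = (fun i => (starRingEnd ℂ) (z i)) ⬝ᵥ z := by
      intro z
      push_cast
      unfold dotProduct
      apply Finset.sum_congr rfl
      intro i _
      rw [mul_comm, Complex.mul_conj, Complex.normSq_eq_norm_sq]
      push_cast
      rfl
    have hconj : (fun i => (starRingEnd ℂ) ((Cᵀ *ᵥ z) i)) =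
        Cᵀ *ᵥ (fun i => (starRingEnd ℂ) (z i)) := by
      funext i
      simp [Matrix.mulVec, dotProduct, hC]
    have h1 : ((∑ i, ‖(Cᵀ *ᵥ z) i‖ ^ 2 : ℝ) : ℂ) = ((∑ i, ‖z i‖ ^ 2 : ℝ) : ℂ) := by
      rw [hn, hn, hconj]
      rw [Matrix.mulVec_transpose, ← Matrix.dotProduct_mulVec, Matrix.mulVec_mulVec, hCC',
        Matrix.one_mulVec]
    exact_mod_cast h1
  refine ⟨Cᵀ *ᵥ u, ?_, ?_, ?_⟩
  · rw [hnorm, hu1]
  · have hG : (Matrix.of (cj b X)) = O * Matrix.of X * Oᵀ := by
      ext i j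
      rw [Matrix.mul_assoc, Matrix.mul_apply]
      simp only [Matrix.of_apply, cj, Matrix.mul_apply, Matrix.transpose_apply, hO]
      apply Finset.sum_congr rfl
      intro p _
      ring
    have hA : (Matrix.of fun p r => ∑ i, ∑ j, (b p) i * A i j * (b r) j) =
        Oᵀ * Matrix.of A * O := by
      ext p r
      rw [Matrix.mul_assoc, Matrix.mul_apply]
      simp only [Matrix.of_apply, Matrix.mul_apply, Matrix.transpose_apply, hO]
      apply Finset.sum_congr rfl
      intro i _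
      rw [Finset.mul_sum]
      apply Finset.sum_congr rfl
      intro j _
      ring
    have hkey : ct w ((fun p r => ∑ i, ∑ j, (b p) i * A i j * (b r) j) + X) (Cᵀ *ᵥ u) =
        Cᵀ *ᵥ ct w (A + cj b X) u := by
      rw [hct, hct]
      have e1 : Matrix.of ((fun p r => ∑ i, ∑ j, (b p) i * A i j * (b r) j) + X) =
          Oᵀ * Matrix.of (A + cj b X) * O := by
        have e2 : Matrix.of ((fun p r => ∑ i, ∑ j, (b p) i * A i j * (b r) j) + X) =
          (Matrix.of fun p r => ∑ i, ∑ j, (b p) i * A i j * (b r) j) + Matrix.of X := rfl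
        have e3 : Matrix.of (A + cj b X) = Matrix.of A + Matrix.of (cj b X) := rfl
        rw [e2, e3, hA, hG, mul_add, add_mul]
        congr 1
        calc Matrix.of X = 1 * Matrix.of X * 1 := by rw [one_mul, mul_one]
          _ = (Oᵀ * O) * Matrix.of X * (Oᵀ * O) := by rw [hOO]
          _ = _ := by simp only [Matrix.mul_assoc]
      rw [e1, hmapmul, hmapmul, Matrix.transpose_mul, Matrix.transpose_mul,
        Matrix.transpose_map, Matrix.transpose_transpose, ← hC]
      rw [Matrix.mulVec_sub, Matrix.mulVec_smul]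
      congr 1
      rw [Matrix.mulVec_mulVec, Matrix.mulVec_mulVec]
      congr 1
      simp only [Matrix.mul_assoc]
      rw [hCC', Matrix.mul_one]
    rw [hkey, hnorm]
    exact hu2
  · have h1 : ∑ i, ((Pi.single k (1 : ℝ) : ι → ℝ) i : ℂ) * (Cᵀ *ᵥ u) i =
        ∑ i, (v i : ℂ) * u i := by
      rw [Finset.sum_eq_single k]
      · simp only [Pi.single_eq_same, Complex.ofReal_one, one_mul]
        unfold Matrix.mulVec dotProduct
        apply Finset.sum_congr rfl
        intro i _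
        simp only [Matrix.transpose_apply, hC, Matrix.map_apply, hO, Matrix.of_apply]
        rw [← hb]
      · intro i _ hi
        simp [Pi.single_eq_of_ne hi]
      · intro h; exact absurd (Finset.mem_univ k) h
    rw [h1]
    exact hu3

theorem opn_conj (b : OrthonormalBasis ι ℝ (EuclideanSpace ℝ ι)) (A : ι → ι → ℝ) :
    opn (fun p r => ∑ i, ∑ j, (b p) i * A i j * (b r) j) ≤ opn A := by
  apply opn_le _ (opn_nonneg _)
  intro x y
  have hcomb : ∀ z : ι → ℝ, (fun i => ∑ p, z p * (b p) i) ⬝ᵥ (fun i => ∑ p, z p * (b p) i) =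
      z ⬝ᵥ z := by
    intro z
    unfold dotProduct
    calc ∑ i, (∑ p, z p * (b p) i) * (∑ p, z p * (b p) i)
        = ∑ i, ∑ p, ∑ r, z p * z r * ((b p) i * (b r) i) := by
          apply Finset.sum_congr rfl
          intro i _
          rw [Finset.sum_mul_sum]
          apply Finset.sum_congr rfl
          intro p _
          apply Finset.sum_congr rfl
          intro r _
          ring
      _ = ∑ p, ∑ r, z p * z r * ∑ i, (b p) i * (b r) i := by
          rw [Finset.sum_comm]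
          apply Finset.sum_congr rfl
          intro p _
          rw [Finset.sum_comm]
          apply Finset.sum_congr rfl
          intro r _
          rw [Finset.mul_sum]
      _ = ∑ p, z p * z p := by
          simp only [basis_orth, mul_ite, mul_one, mul_zero, Finset.sum_ite_eq, Finset.mem_univ,
            if_true]
  have h1 : x ⬝ᵥ (Matrix.of (fun p r => ∑ i, ∑ j, (b p) i * A i j * (b r) j) *ᵥ y) =
      (fun i => ∑ p, x p * (b p) i) ⬝ᵥ (Matrix.of A *ᵥ (fun i => ∑ p, y p * (b p) i)) := by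
    simp only [dotProduct, Matrix.mulVec, Matrix.of_apply]
    calc ∑ p, x p * ∑ r, (∑ i, ∑ j, (b p) i * A i j * (b r) j) * y r
        = ∑ p, ∑ r, ∑ i, ∑ j, x p * (b p) i * A i j * (y r * (b r) j) := by
          apply Finset.sum_congr rfl
          intro p _
          rw [Finset.mul_sum]
          apply Finset.sum_congr rfl
          intro r _
          rw [Finset.sum_mul, Finset.mul_sum]
          apply Finset.sum_congr rfl
          intro i _
          rw [Finset.sum_mul, Finset.mul_sum]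
          apply Finset.sum_congr rfl
          intro j _
          ring
      _ = ∑ p, ∑ i, ∑ r, ∑ j, x p * (b p) i * A i j * (y r * (b r) j) := by
          apply Finset.sum_congr rfl
          intro p _
          rw [Finset.sum_comm]
      _ = ∑ i, ∑ p, ∑ r, ∑ j, x p * (b p) i * A i j * (y r * (b r) j) := by
          rw [Finset.sum_comm]
      _ = _ := by
          apply Finset.sum_congr rfl
          intro i _
          rw [Finset.sum_mul]
          apply Finset.sum_congr rfl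
          intro p _
          rw [Finset.mul_sum, Finset.sum_comm]
          apply Finset.sum_congr rfl
          intro j _
          rw [Finset.mul_sum, Finset.mul_sum]
          apply Finset.sum_congr rfl
          intro r _
          ring
  rw [h1]
  have h2 := opn_bil A (fun i => ∑ p, x p * (b p) i) (fun i => ∑ p, y p * (b p) i)
  rw [hcomb, hcomb] at h2
  exact h2

/-- The estimate for a general unit direction. -/
theorem core_v (A : ι → ι → ℝ) (w : ℂ) (hw : w.im ≠ 0) {t c : ℝ} (ht : 0 ≤ t) (hc : 0 < c)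
    [Nonempty ι] (v : ι → ℝ) (hv : ∑ i, v i ^ 2 = 1) :
    mu2 ι (EV A w t c v) ≤
      ENNReal.ofReal ((6 * opn A + 44 * √(Fintype.card ι)) * (t / c) ^ 2 / |w.im|) := by
  obtain ⟨k⟩ := (inferInstance : Nonempty ι)
  obtain ⟨b, hb⟩ := exists_basis k v hv
  have hmS : MeasurableSet (EV A w t c v) := (EV_closed _ _ _ _ _).measurableSet
  have h1 := cj_int b ((EV A w t c v).indicator 1) (measurable_one.indicator hmS)
  rw [lintegral_indicator_one hmS] at h1
  rw [h1]
  set A' : ι → ι → ℝ := fun p r => ∑ i, ∑ j, (b p) i * A i j * (b r) j with hA'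
  have hmS' : MeasurableSet (EV A' w t c (Pi.single k 1)) := (EV_closed _ _ _ _ _).measurableSet
  have h2 : ∫⁻ X, (EV A w t c v).indicator 1 (cj b X) ∂(mu2 ι) ≤
      mu2 ι (EV A' w t c (Pi.single k 1)) := by
    rw [← lintegral_indicator_one hmS']
    apply lintegral_mono
    intro X
    simp only
    by_cases hX : cj b X ∈ EV A w t c v
    · rw [Set.indicator_of_mem hX, Set.indicator_of_mem (cj_EV b k v hb A w t c X hX)]
      simp
    · rw [Set.indicator_of_notMem hX]
      exact zero_le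
  refine h2.trans ((core A' w hw ht hc k).trans ?_)
  apply ENNReal.ofReal_le_ofReal
  have h3 : opn A' ≤ opn A := opn_conj b A
  have := opn_nonneg A'
  gcongr

/-! ### Signs -/

/-- The sign vector of a set. -/
def sg (S : Finset ι) (i : ι) : ℝ := if i ∈ S then 1 else -1

theorem sg_sum_insert (u : ι → ℂ) (T : Finset ι) (a : ι) (ha : a ∉ T) (f : ℂ → ℝ) :
    ∑ S ∈ (insert a T).powerset, f (∑ i ∈ insert a T, (sg S i : ℂ) * u i) =
      ∑ S ∈ T.powerset, (f (-u a + ∑ i ∈ T, (sg S i : ℂ) * u i) +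
        f (u a + ∑ i ∈ T, (sg S i : ℂ) * u i)) := by
  rw [Finset.sum_powerset_insert ha, Finset.sum_add_distrib]
  congr 1
  · apply Finset.sum_congr rfl
    intro S hS
    have haS : a ∉ S := fun h => ha (Finset.mem_powerset.mp hS h)
    rw [Finset.sum_insert ha]
    congr 2
    simp [sg, haS]
  · apply Finset.sum_congr rfl
    intro S hS
    rw [Finset.sum_insert ha]
    congr 2
    · simp [sg]
    · apply Finset.sum_congr rfl
      intro i hi
      have hia : i ≠ a := fun h => ha (h ▸ hi)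
      simp [sg, hia]

theorem moment2 (u : ι → ℂ) (T : Finset ι) :
    ∑ S ∈ T.powerset, ‖∑ i ∈ T, (sg S i : ℂ) * u i‖ ^ 2 =
      2 ^ T.card * ∑ i ∈ T, ‖u i‖ ^ 2 := by
  induction T using Finset.induction_on with
  | empty => simp
  | insert a T ha ih =>
    rw [sg_sum_insert u T a ha (fun z => ‖z‖ ^ 2)]
    have h1 : ∀ S ∈ T.powerset, ‖-u a + ∑ i ∈ T, (sg S i : ℂ) * u i‖ ^ 2 +
        ‖u a + ∑ i ∈ T, (sg S i : ℂ) * u i‖ ^ 2 =
        2 * ‖∑ i ∈ T, (sg S i : ℂ) * u i‖ ^ 2 + 2 * ‖u a‖ ^ 2 := by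
      intro S _
      set z := ∑ i ∈ T, (sg S i : ℂ) * u i
      simp only [← Complex.normSq_eq_norm_sq, Complex.normSq_apply, Complex.add_re,
        Complex.add_im, Complex.neg_re, Complex.neg_im]
      ring
    rw [Finset.sum_congr rfl h1, Finset.sum_add_distrib, ← Finset.mul_sum, ih,
      Finset.sum_insert ha, Finset.card_insert_of_notMem ha, Finset.sum_const,
      Finset.card_powerset, nsmul_eq_mul]
    push_cast
    ring

theorem moment4 (u : ι → ℂ) (T : Finset ι) :
    ∑ S ∈ T.powerset, (‖∑ i ∈ T, (sg S i : ℂ) * u i‖ ^ 2) ^ 2 ≤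
      3 * 2 ^ T.card * (∑ i ∈ T, ‖u i‖ ^ 2) ^ 2 := by
  induction T using Finset.induction_on with
  | empty => simp
  | insert a T ha ih =>
    rw [sg_sum_insert u T a ha (fun z => (‖z‖ ^ 2) ^ 2)]
    have h1 : ∀ S ∈ T.powerset, (‖-u a + ∑ i ∈ T, (sg S i : ℂ) * u i‖ ^ 2) ^ 2 +
        (‖u a + ∑ i ∈ T, (sg S i : ℂ) * u i‖ ^ 2) ^ 2 ≤
        2 * (‖∑ i ∈ T, (sg S i : ℂ) * u i‖ ^ 2) ^ 2 +
          12 * ‖u a‖ ^ 2 * ‖∑ i ∈ T, (sg S i : ℂ) * u i‖ ^ 2 + 2 * (‖u a‖ ^ 2) ^ 2 := by
      intro S _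
      set z := ∑ i ∈ T, (sg S i : ℂ) * u i
      simp only [← Complex.normSq_eq_norm_sq, Complex.normSq_apply, Complex.add_re,
        Complex.add_im, Complex.neg_re, Complex.neg_im]
      nlinarith [sq_nonneg ((u a).re * z.im - (u a).im * z.re)]
    refine (Finset.sum_le_sum h1).trans ?_
    rw [Finset.sum_add_distrib, Finset.sum_add_distrib, ← Finset.mul_sum, ← Finset.mul_sum,
      moment2, Finset.sum_insert ha, Finset.card_insert_of_notMem ha, Finset.sum_const,
      Finset.card_powerset, nsmul_eq_mul]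
    push_cast
    have hs : 0 ≤ ∑ i ∈ T, ‖u i‖ ^ 2 := Finset.sum_nonneg fun i _ => by positivity
    set σ := ∑ i ∈ T, ‖u i‖ ^ 2
    set N : ℝ := 2 ^ T.card with hN
    have hN0 : 0 ≤ N := by positivity
    have e : (2 : ℝ) ^ (T.card + 1) = 2 * N := by rw [hN, pow_succ]; ring
    rw [e]
    nlinarith [mul_nonneg hN0 (sq_nonneg (‖u a‖ ^ 2)), ih]

theorem many_signs (u : ι → ℂ) (hu : ∑ i, ‖u i‖ ^ 2 = 1) :
    (2 : ℝ) ^ (Fintype.card ι) ≤ 10 * ∑ S ∈ (Finset.univ : Finset ι).powerset,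
      (if 1 / 2 ≤ ‖∑ i, (sg S i : ℂ) * u i‖ ^ 2 then (1 : ℝ) else 0) := by
  have m2 := moment2 u Finset.univ
  have m4 := moment4 u Finset.univ
  rw [hu, mul_one] at m2
  rw [hu, one_pow, mul_one] at m4
  rw [Finset.card_univ] at m2 m4
  have hpt : ∀ S ∈ (Finset.univ : Finset ι).powerset,
      16 / 361 * ((‖∑ i, (sg S i : ℂ) * u i‖ ^ 2 - 1 / 2) *
        (10 - ‖∑ i, (sg S i : ℂ) * u i‖ ^ 2)) ≤
      (if 1 / 2 ≤ ‖∑ i, (sg S i : ℂ) * u i‖ ^ 2 then (1 : ℝ) else 0) := by
    intro S _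
    set X := ‖∑ i, (sg S i : ℂ) * u i‖ ^ 2 with hX
    split_ifs with h
    · nlinarith [sq_nonneg (X - 21 / 4)]
    · push Not at h
      nlinarith
  have h1 := Finset.sum_le_sum hpt
  have h2 : ∑ S ∈ (Finset.univ : Finset ι).powerset,
      16 / 361 * ((‖∑ i, (sg S i : ℂ) * u i‖ ^ 2 - 1 / 2) *
        (10 - ‖∑ i, (sg S i : ℂ) * u i‖ ^ 2)) =
      16 / 361 * (21 / 2 * (∑ S ∈ (Finset.univ : Finset ι).powerset,
        ‖∑ i, (sg S i : ℂ) * u i‖ ^ 2) - (∑ S ∈ (Finset.univ : Finset ι).powerset,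
        (‖∑ i, (sg S i : ℂ) * u i‖ ^ 2) ^ 2) - 5 * 2 ^ (Fintype.card ι)) := by
    rw [← Finset.mul_sum]
    congr 1
    have h3 : (5 : ℝ) * 2 ^ (Fintype.card ι) =
        ∑ _S ∈ (Finset.univ : Finset ι).powerset, (5 : ℝ) := by
      rw [Finset.sum_const, Finset.card_powerset, Finset.card_univ, nsmul_eq_mul]
      push_cast
      ring
    rw [h3, Finset.mul_sum, ← Finset.sum_sub_distrib, ← Finset.sum_sub_distrib]
    apply Finset.sum_congr rfl
    intro S _
    ring
  rw [h2, m2] at h1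
  have hpos : (0 : ℝ) < 2 ^ (Fintype.card ι) := by positivity
  nlinarith

/-- The estimate for the Gaussian matrix at scale one. -/
theorem scale_one (A : ι → ι → ℝ) (w : ℂ) (hw : w.im ≠ 0) {t : ℝ} (ht : 0 ≤ t) [Nonempty ι] :
    mu2 ι {G | ∃ u : ι → ℂ, ∑ i, ‖u i‖ ^ 2 = 1 ∧ ∑ i, ‖ct w (A + G) u i‖ ^ 2 ≤ t ^ 2} ≤
      ENNReal.ofReal (880 * (opn A + √(Fintype.card ι)) * Fintype.card ι * t ^ 2 / |w.im|) := by
  set n := Fintype.card ι with hn
  have hnpos : (0 : ℝ) < n := by exact_mod_cast Fintype.card_pos (α := ι)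
  have hsq : 0 < √(n : ℝ) := Real.sqrt_pos.mpr hnpos
  have hsq2 : √(n : ℝ) ^ 2 = n := Real.sq_sqrt hnpos.le
  set c : ℝ := √(1 / 2) / √n with hc
  have hcpos : 0 < c := by positivity
  have hc2 : c ^ 2 = 1 / (2 * n) := by
    rw [hc, div_pow, hsq2, Real.sq_sqrt (by norm_num)]
    field_simp
  set E := {G : ι → ι → ℝ | ∃ u : ι → ℂ, ∑ i, ‖u i‖ ^ 2 = 1 ∧
    ∑ i, ‖ct w (A + G) u i‖ ^ 2 ≤ t ^ 2} with hE
  have hEm : MeasurableSet E := by
    have h1 : E = EV A w t 0 0 := by
      ext G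
      simp only [hE, EV, Set.mem_ofPred_eq, Pi.zero_apply, Complex.ofReal_zero, zero_mul,
        Finset.sum_const_zero, norm_zero, le_refl, and_true]
    rw [h1]
    exact (EV_closed _ _ _ _ _).measurableSet
  set v : Finset ι → ι → ℝ := fun S i => sg S i / √n with hv
  have hvn : ∀ S, ∑ i, v S i ^ 2 = 1 := by
    intro S
    have h1 : ∀ i, v S i ^ 2 = 1 / n := by
      intro i
      simp only [hv, div_pow, hsq2]
      congr 1
      unfold sg
      split_ifs <;> norm_num
    simp only [h1, Finset.sum_const, Finset.card_univ, nsmul_eq_mul]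
    rw [← hn]
    field_simp
  have hmS : ∀ S, MeasurableSet (EV A w t c (v S)) :=
    fun S => (EV_closed _ _ _ _ _).measurableSet
  have hpt : ∀ G : ι → ι → ℝ, (2 : ℝ≥0∞) ^ n * E.indicator 1 G ≤
      10 * ∑ S ∈ (Finset.univ : Finset ι).powerset, (EV A w t c (v S)).indicator 1 G := by
    intro G
    by_cases hG : G ∈ E
    · rw [Set.indicator_of_mem hG, Pi.one_apply, mul_one]
      obtain ⟨u, hu1, hu2⟩ := hG
      have h1 := many_signs u hu1
      have h2 : ∀ S : Finset ι, ENNReal.ofReal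
          (if 1 / 2 ≤ ‖∑ i, (sg S i : ℂ) * u i‖ ^ 2 then (1 : ℝ) else 0) ≤
          (EV A w t c (v S)).indicator 1 G := by
        intro S
        split_ifs with h
        · rw [Set.indicator_of_mem]
          · simp
          · refine ⟨u, hu1, hu2, ?_⟩
            have h3 : ∑ i, (v S i : ℂ) * u i = (∑ i, (sg S i : ℂ) * u i) / (√n : ℝ) := by
              rw [Finset.sum_div]
              apply Finset.sum_congr rfl
              intro i _
              simp only [hv]
              push_cast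
              ring
            rw [h3, norm_div, Complex.norm_real, Real.norm_of_nonneg hsq.le, hc]
            gcongr
            exact Real.sqrt_le_iff.mpr ⟨norm_nonneg _, h⟩
        · simp
      calc (2 : ℝ≥0∞) ^ n = ENNReal.ofReal (2 ^ n) := by
            rw [ENNReal.ofReal_pow (by norm_num)]; simp
        _ ≤ ENNReal.ofReal (10 * ∑ S ∈ (Finset.univ : Finset ι).powerset,
            (if 1 / 2 ≤ ‖∑ i, (sg S i : ℂ) * u i‖ ^ 2 then (1 : ℝ) else 0)) :=
            ENNReal.ofReal_le_ofReal h1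
        _ = 10 * ∑ S ∈ (Finset.univ : Finset ι).powerset, ENNReal.ofReal
            (if 1 / 2 ≤ ‖∑ i, (sg S i : ℂ) * u i‖ ^ 2 then (1 : ℝ) else 0) := by
            rw [ENNReal.ofReal_mul (by norm_num), ENNReal.ofReal_sum_of_nonneg]
            · simp
            · intro S _
              split_ifs <;> norm_num
        _ ≤ _ := by
            gcongr with S _
            exact h2 S
    · rw [Set.indicator_of_notMem hG, mul_zero]
      exact zero_le
  have hint : (2 : ℝ≥0∞) ^ n * mu2 ι E ≤ 10 * ∑ S ∈ (Finset.univ : Finset ι).powerset,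
      mu2 ι (EV A w t c (v S)) := by
    have h1 := lintegral_mono (μ := mu2 ι) hpt
    rw [lintegral_const_mul _ (measurable_one.indicator hEm), lintegral_const_mul _
      (Finset.measurable_sum _ fun S _ => measurable_one.indicator (hmS S)),
      lintegral_finsetSum _ (fun S _ => measurable_one.indicator (hmS S)),
      lintegral_indicator_one hEm] at h1
    simp only [lintegral_indicator_one (hmS _)] at h1
    exact h1
  set B : ℝ := (6 * opn A + 44 * √n) * (t / c) ^ 2 / |w.im| with hB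
  have hA := opn_nonneg A
  have hB0 : 0 ≤ B := by positivity
  have hint2 : (2 : ℝ≥0∞) ^ n * mu2 ι E ≤ (2 : ℝ≥0∞) ^ n * ENNReal.ofReal (10 * B) := by
    refine hint.trans ?_
    calc 10 * ∑ S ∈ (Finset.univ : Finset ι).powerset, mu2 ι (EV A w t c (v S))
        ≤ 10 * ∑ _S ∈ (Finset.univ : Finset ι).powerset, ENNReal.ofReal B := by
          gcongr with S _
          exact core_v A w hw ht hcpos (v S) (hvn S)
      _ = (2 : ℝ≥0∞) ^ n * ENNReal.ofReal (10 * B) := by
          rw [Finset.sum_const, Finset.card_powerset, Finset.card_univ, ← hn, nsmul_eq_mul,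
            ENNReal.ofReal_mul (by norm_num)]
          push_cast
          rw [show ENNReal.ofReal 10 = 10 by simp]
          ring
  have h2n : (2 : ℝ≥0∞) ^ n ≠ 0 := by positivity
  have h2t : (2 : ℝ≥0∞) ^ n ≠ ⊤ := by finiteness
  have hfin := (ENNReal.mul_le_mul_iff_right h2n h2t).mp hint2
  refine hfin.trans ?_
  apply ENNReal.ofReal_le_ofReal
  have h5 : (t / c) ^ 2 = 2 * n * t ^ 2 := by
    rw [div_pow, hc2]
    field_simp
  rw [hB, h5]
  have h6 : 10 * ((6 * opn A + 44 * √n) * (2 * n * t ^ 2) / |w.im|) =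
      (120 * opn A + 880 * √n) * n * t ^ 2 / |w.im| := by ring
  rw [h6]
  have h7 : 120 * opn A + 880 * √(n : ℝ) ≤ 880 * (opn A + √n) := by linarith
  gcongr

end Pool.Agent.R860.CG
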