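import Pool.Agent.R979.SV.Rows

/-!
# The operator norm of a Gaussian matrix
-/

set_option autoImplicit false

namespace Pool.Agent.R860.CG

open MeasureTheory ProbabilityTheory Set Matrix
open scoped ENNReal
open Pool.Agent.R979.SV

theorem lintegral_pi_prod {ι : Type} [Fintype ι] {X : ι → Type} [∀ i, MeasurableSpace (X i)]
    (μ : ∀ i, Measure (X i)) [∀ i, IsProbabilityMeasure (μ i)] (f : ∀ i, X i → ℝ≥0∞)
    (hf : ∀ i, Measurable (f i)) :
    ∫⁻ ω, ∏ i, f i (ω i) ∂(Measure.pi μ) = ∏ i, ∫⁻ x, f i x ∂(μ i) := by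
  have h1 : iIndepFun (fun i (ω : ∀ i, X i) => f i (ω i)) (Measure.pi μ) :=
    iIndepFun_pi (fun i => (hf i).aemeasurable)
  rw [lintegral_prod_eq_prod_lintegral_of_indepFun Finset.univ _ h1
    (fun i => (hf i).comp (measurable_pi_apply i))]
  apply Finset.prod_congr rfl
  intro i _
  exact (measurePreserving_eval μ i).lintegral_comp (hf i)

theorem mgf_gam (c : ℝ) : ∫⁻ x, ENNReal.ofReal (Real.exp (c * x)) ∂gam =
    ENNReal.ofReal (Real.exp (c ^ 2 / 2)) := by
  rw [← ofReal_integral_eq_lintegral_ofReal]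
  · congr 1
    have := congrFun (mgf_id_gaussianReal (μ := 0) (v := 1)) c
    simp only [mgf, id] at this
    rw [this]
    simp
  · exact integrable_exp_mul_gaussianReal c
  · exact Filter.Eventually.of_forall fun x => (Real.exp_pos _).le

variable {ι : Type} [Fintype ι] [DecidableEq ι]

theorem mgf_mu2 (θ : ℝ) (u v : ι → ℝ) :
    ∫⁻ G, ENNReal.ofReal (Real.exp (θ * (u ⬝ᵥ (Matrix.of G *ᵥ v)))) ∂(mu2 ι) =
      ENNReal.ofReal (Real.exp (θ ^ 2 * (u ⬝ᵥ u) * (v ⬝ᵥ v) / 2)) := by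
  have h1 : ∀ G : ι → ι → ℝ, ENNReal.ofReal (Real.exp (θ * (u ⬝ᵥ (Matrix.of G *ᵥ v)))) =
      ∏ i, ∏ j, ENNReal.ofReal (Real.exp ((θ * u i * v j) * G i j)) := by
    intro G
    have : ∀ i, ∏ j, ENNReal.ofReal (Real.exp ((θ * u i * v j) * G i j)) =
        ENNReal.ofReal (Real.exp (∑ j, (θ * u i * v j) * G i j)) := by
      intro i
      rw [Real.exp_sum, ENNReal.ofReal_prod_of_nonneg (fun _ _ => (Real.exp_pos _).le)]
    simp only [this]
    rw [← ENNReal.ofReal_prod_of_nonneg (fun _ _ => (Real.exp_pos _).le), ← Real.exp_sum]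
    congr 2
    simp only [dotProduct, mulVec, Matrix.of_apply, Finset.mul_sum]
    apply Finset.sum_congr rfl
    intro i _
    apply Finset.sum_congr rfl
    intro j _
    ring
  simp only [h1]
  have hm : ∀ i j, Measurable fun x : ℝ => ENNReal.ofReal (Real.exp ((θ * u i * v j) * x)) := by
    intro i j
    fun_prop
  rw [show mu2 ι = Measure.pi (fun _ : ι => mu1 ι) from rfl,
    lintegral_pi_prod (fun _ : ι => mu1 ι) (fun i (x : ι → ℝ) =>
      ∏ j, ENNReal.ofReal (Real.exp ((θ * u i * v j) * x j)))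
      (fun i => Finset.measurable_prod _ fun j _ => (hm i j).comp (measurable_pi_apply j))]
  have h2 : ∀ i, ∫⁻ x, ∏ j, ENNReal.ofReal (Real.exp ((θ * u i * v j) * x j)) ∂(mu1 ι) =
      ENNReal.ofReal (Real.exp (∑ j, (θ * u i * v j) ^ 2 / 2)) := by
    intro i
    rw [show mu1 ι = Measure.pi (fun _ : ι => gam) from rfl,
      lintegral_pi_prod (fun _ : ι => gam) (fun j (x : ℝ) =>
      ENNReal.ofReal (Real.exp ((θ * u i * v j) * x))) (fun j => hm i j)]
    simp only [mgf_gam]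
    rw [Real.exp_sum, ENNReal.ofReal_prod_of_nonneg (fun _ _ => (Real.exp_pos _).le)]
  simp only [h2]
  rw [← ENNReal.ofReal_prod_of_nonneg (fun _ _ => (Real.exp_pos _).le), ← Real.exp_sum]
  congr 2
  simp only [dotProduct, Finset.mul_sum, Finset.sum_mul, Finset.sum_div]
  rw [Finset.sum_comm]
  apply Finset.sum_congr rfl
  intro i _
  apply Finset.sum_congr rfl
  intro j _
  ring

/-- The operator norm of a real matrix on Euclidean space. -/
noncomputable def opn (M : ι → ι → ℝ) : ℝ :=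
  ‖Matrix.toEuclideanCLM (n := ι) (𝕜 := ℝ) (Matrix.of M)‖

theorem opn_nonneg (M : ι → ι → ℝ) : 0 ≤ opn M := norm_nonneg _

theorem opn_bil (M : ι → ι → ℝ) (x y : ι → ℝ) :
    |x ⬝ᵥ (Matrix.of M *ᵥ y)| ≤ opn M * √(x ⬝ᵥ x) * √(y ⬝ᵥ y) := by
  have h1 := inner_toEuclideanCLM (Matrix.of M) (WithLp.toLp 2 x) (WithLp.toLp 2 y)
  have h2 := abs_real_inner_le_norm (WithLp.toLp 2 x)
    (toEuclideanCLM (n := ι) (𝕜 := ℝ) (Matrix.of M) (WithLp.toLp 2 y))
  rw [h1] at h2
  have h3 := (toEuclideanCLM (n := ι) (𝕜 := ℝ) (Matrix.of M)).le_opNorm (WithLp.toLp 2 y)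
  have hn : ∀ z : ι → ℝ, ‖(WithLp.toLp 2 z : EuclideanSpace ℝ ι)‖ = √(z ⬝ᵥ z) := by
    intro z
    rw [EuclideanSpace.norm_eq]
    congr 1
    unfold dotProduct
    apply Finset.sum_congr rfl
    intro i _
    simp [sq]
  rw [hn x] at h2
  rw [hn y] at h3
  refine h2.trans ?_
  unfold opn
  calc √(x ⬝ᵥ x) * ‖toEuclideanCLM (n := ι) (𝕜 := ℝ) (Matrix.of M) (WithLp.toLp 2 y)‖
      ≤ √(x ⬝ᵥ x) * (‖toEuclideanCLM (n := ι) (𝕜 := ℝ) (Matrix.of M)‖ * √(y ⬝ᵥ y)) :=
        mul_le_mul_of_nonneg_left h3 (Real.sqrt_nonneg _)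
    _ = _ := by ring

theorem opn_le (M : ι → ι → ℝ) {L : ℝ} (hL : 0 ≤ L)
    (h : ∀ x y : ι → ℝ, |x ⬝ᵥ (Matrix.of M *ᵥ y)| ≤ L * √(x ⬝ᵥ x) * √(y ⬝ᵥ y)) : opn M ≤ L := by
  unfold opn
  apply ContinuousLinearMap.opNorm_le_bound _ hL
  intro y
  set T := toEuclideanCLM (n := ι) (𝕜 := ℝ) (Matrix.of M) with hT
  have hn : ∀ z : EuclideanSpace ℝ ι, ‖z‖ = √(WithLp.ofLp z ⬝ᵥ WithLp.ofLp z) := by
    intro z
    rw [EuclideanSpace.norm_eq]
    congr 1
    unfold dotProduct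
    apply Finset.sum_congr rfl
    intro i _
    simp [sq]
  have h1 := inner_toEuclideanCLM (Matrix.of M) (T y) y
  have h2 := h (WithLp.ofLp (T y)) (WithLp.ofLp y)
  rw [← h1, ← hT, ← hn, ← hn, real_inner_self_eq_norm_sq, abs_of_nonneg (sq_nonneg _)] at h2
  rcases (norm_nonneg (T y)).eq_or_lt with h3 | h3
  · rw [← h3]; positivity
  · by_contra h4
    push Not at h4
    nlinarith

theorem opn_cont : Continuous (opn : (ι → ι → ℝ) → ℝ) := by
  unfold opn
  apply Continuous.norm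
  have h1 : Continuous (fun A : Matrix ι ι ℝ => toEuclideanCLM (n := ι) (𝕜 := ℝ) A) :=
    LinearMap.continuous_of_finiteDimensional
      ({ toFun := fun A : Matrix ι ι ℝ => toEuclideanCLM (n := ι) (𝕜 := ℝ) A
         map_add' := fun A B => map_add _ A B
         map_smul' := fun c A => map_smul _ c A } :
        Matrix ι ι ℝ →ₗ[ℝ] (EuclideanSpace ℝ ι →L[ℝ] EuclideanSpace ℝ ι))
  have h2 : Continuous fun A : ι → ι → ℝ => Matrix.of A := continuous_id
  exact h1.comp h2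

theorem opn_add (M N : ι → ι → ℝ) : opn (M + N) ≤ opn M + opn N := by
  unfold opn
  rw [show Matrix.of (M + N) = Matrix.of M + Matrix.of N from rfl, map_add]
  exact norm_add_le _ _

theorem ball_lower (θ : ℝ) (hθ : 0 ≤ θ) (G : ι → ι → ℝ) :
    ENNReal.ofReal (Real.exp (θ * opn G / 2)) *
      (ENNReal.ofReal ((1 / 8) ^ (Fintype.card ι)) *
        volume (Metric.ball (0 : EuclideanSpace ℝ ι) 1)) ^ 2 ≤
    ∫⁻ p in (Metric.ball (0 : EuclideanSpace ℝ ι) 1) ×ˢ (Metric.ball (0 : EuclideanSpace ℝ ι) 1),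
      ENNReal.ofReal (Real.exp (θ * (WithLp.ofLp p.1 ⬝ᵥ (Matrix.of G *ᵥ WithLp.ofLp p.2)))) := by
  set T := toEuclideanCLM (n := ι) (𝕜 := ℝ) (Matrix.of G) with hT
  have hop : opn G = ‖T‖ := rfl
  obtain ⟨u, v, hu, hv, huv⟩ : ∃ u v : EuclideanSpace ℝ ι, ‖u‖ ≤ 1 ∧ ‖v‖ ≤ 1 ∧
      47 / 49 * ‖T‖ ≤ inner ℝ u (T v) := by
    rcases (norm_nonneg T).eq_or_lt with h | h
    · refine ⟨0, 0, by simp, by simp, ?_⟩
      rw [← h]; simp
    · obtain ⟨v, hv, hv2⟩ := T.exists_lt_apply_of_lt_opNorm (show 47 / 49 * ‖T‖ < ‖T‖ by linarith)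
      have hpos : 0 < ‖T v‖ := by linarith
      refine ⟨‖T v‖⁻¹ • T v, v, ?_, hv.le, ?_⟩
      · rw [norm_smul, norm_inv, norm_norm, inv_mul_cancel₀ hpos.ne']
      · rw [real_inner_smul_left, real_inner_self_eq_norm_sq, sq, ← mul_assoc,
          inv_mul_cancel₀ hpos.ne', one_mul]
        exact hv2.le
  have hball : ∀ x : EuclideanSpace ℝ ι, ‖x‖ ≤ 1 →
      Metric.ball ((7 / 8 : ℝ) • x) (1 / 8) ⊆ Metric.ball 0 1 := by
    intro x hx z hz
    rw [Metric.mem_ball, dist_eq_norm] at hz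
    rw [Metric.mem_ball, dist_zero_right]
    have h1 : ‖z‖ ≤ ‖z - (7 / 8 : ℝ) • x‖ + ‖(7 / 8 : ℝ) • x‖ := by
      calc ‖z‖ = ‖(z - (7 / 8 : ℝ) • x) + (7 / 8 : ℝ) • x‖ := by rw [sub_add_cancel]
        _ ≤ _ := norm_add_le _ _
    rw [norm_smul, Real.norm_of_nonneg (by norm_num)] at h1
    linarith
  have hlow : ∀ p ∈ Metric.ball ((7 / 8 : ℝ) • u) (1 / 8) ×ˢ Metric.ball ((7 / 8 : ℝ) • v) (1 / 8),
      ENNReal.ofReal (Real.exp (θ * opn G / 2)) ≤ ENNReal.ofReal (Real.exp (θ *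
        (WithLp.ofLp p.1 ⬝ᵥ (Matrix.of G *ᵥ WithLp.ofLp p.2)))) := by
    rintro ⟨x, y⟩ ⟨hx, hy⟩
    simp only at hx hy ⊢
    apply ENNReal.ofReal_le_ofReal
    apply Real.exp_le_exp.mpr
    rw [← inner_toEuclideanCLM, ← hT, hop, mul_div_assoc]
    apply mul_le_mul_of_nonneg_left _ hθ
    rw [Metric.mem_ball, dist_eq_norm] at hx hy
    set p := x - (7 / 8 : ℝ) • u with hp
    set q := y - (7 / 8 : ℝ) • v with hq
    have ex : x = (7 / 8 : ℝ) • u + p := by rw [hp]; abel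
    have ey : y = (7 / 8 : ℝ) • v + q := by rw [hq]; abel
    have e1 : inner ℝ x (T y) = 49 / 64 * inner ℝ u (T v) + 7 / 8 * inner ℝ u (T q) +
        7 / 8 * inner ℝ p (T v) + inner ℝ p (T q) := by
      rw [ex, ey]
      simp only [map_add, map_smul, inner_add_left, inner_add_right, real_inner_smul_left,
        real_inner_smul_right]
      ring
    have hb : ∀ (x y : EuclideanSpace ℝ ι), |inner ℝ x (T y)| ≤ ‖x‖ * (‖T‖ * ‖y‖) := by
      intro x y
      exact (abs_real_inner_le_norm _ _).trans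
        (mul_le_mul_of_nonneg_left (T.le_opNorm y) (norm_nonneg _))
    have hTn := norm_nonneg T
    have b1 := neg_abs_le (inner ℝ u (T q))
    have b2 := neg_abs_le (inner ℝ p (T v))
    have b3 := neg_abs_le (inner ℝ p (T q))
    have c1 : |inner ℝ u (T q)| ≤ 1 / 8 * ‖T‖ := by
      refine (hb u q).trans ?_
      have h1 : ‖T‖ * ‖q‖ ≤ ‖T‖ * (1 / 8) := mul_le_mul_of_nonneg_left hy.le hTn
      have h2 : 0 ≤ ‖T‖ * ‖q‖ := by positivity
      nlinarith
    have c2 : |inner ℝ p (T v)| ≤ 1 / 8 * ‖T‖ := by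
      refine (hb p v).trans ?_
      have h1 : ‖T‖ * ‖v‖ ≤ ‖T‖ * 1 := mul_le_mul_of_nonneg_left hv hTn
      have h2 : 0 ≤ ‖T‖ * ‖v‖ := by positivity
      have h3 := norm_nonneg p
      nlinarith
    have c3 : |inner ℝ p (T q)| ≤ 1 / 64 * ‖T‖ := by
      refine (hb p q).trans ?_
      have h1 : ‖T‖ * ‖q‖ ≤ ‖T‖ * (1 / 8) := mul_le_mul_of_nonneg_left hy.le hTn
      have h2 : 0 ≤ ‖T‖ * ‖q‖ := by positivity
      have h3 := norm_nonneg p
      nlinarith
    rw [e1]
    linarith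
  have hv8 : ∀ x : EuclideanSpace ℝ ι, volume (Metric.ball x (1 / 8)) =
      ENNReal.ofReal ((1 / 8) ^ (Fintype.card ι)) *
        volume (Metric.ball (0 : EuclideanSpace ℝ ι) 1) := by
    intro x
    rw [Measure.addHaar_ball_of_pos volume x (by norm_num), finrank_euclideanSpace]
  calc ENNReal.ofReal (Real.exp (θ * opn G / 2)) *
      (ENNReal.ofReal ((1 / 8) ^ (Fintype.card ι)) *
        volume (Metric.ball (0 : EuclideanSpace ℝ ι) 1)) ^ 2
      = ∫⁻ p in Metric.ball ((7 / 8 : ℝ) • u) (1 / 8) ×ˢ Metric.ball ((7 / 8 : ℝ) • v) (1 / 8),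
          ENNReal.ofReal (Real.exp (θ * opn G / 2)) := by
        rw [setLIntegral_const, Measure.volume_eq_prod, Measure.prod_prod, hv8, hv8, sq]
    _ ≤ ∫⁻ p in Metric.ball ((7 / 8 : ℝ) • u) (1 / 8) ×ˢ Metric.ball ((7 / 8 : ℝ) • v) (1 / 8),
          ENNReal.ofReal (Real.exp (θ *
          (WithLp.ofLp p.1 ⬝ᵥ (Matrix.of G *ᵥ WithLp.ofLp p.2)))) := by
        apply setLIntegral_mono' (measurableSet_ball.prod measurableSet_ball)
        exact hlow
    _ ≤ _ := lintegral_mono_set (Set.prod_mono (hball u hu) (hball v hv))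

theorem opn_exp (G0 : ι → ι → ℝ) :
    ∫⁻ G, ENNReal.ofReal (Real.exp (√(Fintype.card ι) * opn G / 2)) ∂(mu2 ι) ≤
      ENNReal.ofReal (64 ^ (Fintype.card ι) * Real.exp (Fintype.card ι / 2)) := by
  set n := Fintype.card ι with hn
  set θ : ℝ := √n with hθ
  have hθ0 : 0 ≤ θ := Real.sqrt_nonneg _
  have hθ2 : θ ^ 2 = n := Real.sq_sqrt (Nat.cast_nonneg _)
  set V := volume (Metric.ball (0 : EuclideanSpace ℝ ι) 1) with hV
  have hV0 : V ≠ 0 := (Metric.measure_ball_pos volume 0 zero_lt_one).ne'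
  have hVt : V ≠ ⊤ := measure_ball_lt_top.ne
  have hjm : Measurable fun q : (ι → ι → ℝ) × (EuclideanSpace ℝ ι × EuclideanSpace ℝ ι) =>
      ENNReal.ofReal (Real.exp (θ * (WithLp.ofLp q.2.1 ⬝ᵥ (Matrix.of q.1 *ᵥ
        WithLp.ofLp q.2.2)))) := by
    apply ENNReal.measurable_ofReal.comp
    apply Real.measurable_exp.comp
    apply Measurable.const_mul
    apply Continuous.measurable
    simp only [dotProduct, mulVec, Matrix.of_apply]
    fun_prop
  have h1 : ∫⁻ G, ENNReal.ofReal (Real.exp (θ * opn G / 2)) * (ENNReal.ofReal ((1 / 8) ^ n) *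
      V) ^ 2 ∂(mu2 ι) ≤ V ^ 2 * ENNReal.ofReal (Real.exp (n / 2)) := by
    calc ∫⁻ G, ENNReal.ofReal (Real.exp (θ * opn G / 2)) * (ENNReal.ofReal ((1 / 8) ^ n) *
        V) ^ 2 ∂(mu2 ι)
        ≤ ∫⁻ G, (∫⁻ p in (Metric.ball (0 : EuclideanSpace ℝ ι) 1) ×ˢ
            (Metric.ball (0 : EuclideanSpace ℝ ι) 1),
            ENNReal.ofReal (Real.exp (θ * (WithLp.ofLp p.1 ⬝ᵥ (Matrix.of G *ᵥ
              WithLp.ofLp p.2))))) ∂(mu2 ι) := lintegral_mono fun G => ball_lower θ hθ0 G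
      _ = ∫⁻ p in (Metric.ball (0 : EuclideanSpace ℝ ι) 1) ×ˢ
            (Metric.ball (0 : EuclideanSpace ℝ ι) 1), (∫⁻ G,
            ENNReal.ofReal (Real.exp (θ * (WithLp.ofLp p.1 ⬝ᵥ (Matrix.of G *ᵥ
              WithLp.ofLp p.2)))) ∂(mu2 ι)) := by
          rw [lintegral_lintegral_swap]
          exact hjm.aemeasurable
      _ ≤ ∫⁻ p in (Metric.ball (0 : EuclideanSpace ℝ ι) 1) ×ˢ
            (Metric.ball (0 : EuclideanSpace ℝ ι) 1), ENNReal.ofReal (Real.exp (n / 2)) := by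
          apply setLIntegral_mono' (measurableSet_ball.prod measurableSet_ball)
          rintro ⟨x, y⟩ ⟨hx, hy⟩
          simp only at hx hy ⊢
          rw [mgf_mu2]
          apply ENNReal.ofReal_le_ofReal
          apply Real.exp_le_exp.mpr
          rw [hθ2]
          have hb : ∀ z : EuclideanSpace ℝ ι, z ∈ Metric.ball (0 : EuclideanSpace ℝ ι) 1 →
              WithLp.ofLp z ⬝ᵥ WithLp.ofLp z ≤ 1 ∧ 0 ≤ WithLp.ofLp z ⬝ᵥ WithLp.ofLp z := by
            intro z hz
            rw [Metric.mem_ball, dist_zero_right] at hz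
            have h2 : WithLp.ofLp z ⬝ᵥ WithLp.ofLp z = ‖z‖ ^ 2 := by
              rw [EuclideanSpace.norm_sq_eq]
              unfold dotProduct
              apply Finset.sum_congr rfl
              intro i _
              simp [sq]
            rw [h2]
            constructor
            · have := norm_nonneg z
              nlinarith
            · positivity
          have hx' := hb x hx
          have hy' := hb y hy
          have hn0 : (0 : ℝ) ≤ n := Nat.cast_nonneg _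
          have h3 : (WithLp.ofLp x ⬝ᵥ WithLp.ofLp x) * (WithLp.ofLp y ⬝ᵥ WithLp.ofLp y) ≤ 1 := by
            nlinarith [hx'.1, hx'.2, hy'.1, hy'.2]
          have h4 : (n : ℝ) * (WithLp.ofLp x ⬝ᵥ WithLp.ofLp x) *
              (WithLp.ofLp y ⬝ᵥ WithLp.ofLp y) ≤ n := by
            rw [mul_assoc]
            calc (n : ℝ) * ((WithLp.ofLp x ⬝ᵥ WithLp.ofLp x) *
                (WithLp.ofLp y ⬝ᵥ WithLp.ofLp y)) ≤ n * 1 :=
                  mul_le_mul_of_nonneg_left h3 hn0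
              _ = n := mul_one _
          linarith
      _ = V ^ 2 * ENNReal.ofReal (Real.exp (n / 2)) := by
          rw [setLIntegral_const, Measure.volume_eq_prod, Measure.prod_prod, ← hV, sq, mul_comm]
  have hmo : Measurable fun G : ι → ι → ℝ => ENNReal.ofReal (Real.exp (θ * opn G / 2)) := by
    apply ENNReal.measurable_ofReal.comp
    apply Continuous.measurable
    have := opn_cont (ι := ι)
    fun_prop
  rw [lintegral_mul_const _ hmo] at h1
  have h8 : (ENNReal.ofReal ((1 / 8) ^ n) * V) ^ 2 = V ^ 2 * ENNReal.ofReal ((1 / 64) ^ n) := by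
    rw [mul_pow, ← ENNReal.ofReal_pow (by positivity), mul_comm]
    congr 2
    rw [← pow_mul, mul_comm n 2, pow_mul]
    norm_num
  rw [h8] at h1
  have h9 : (∫⁻ G, ENNReal.ofReal (Real.exp (θ * opn G / 2)) ∂(mu2 ι)) *
      ENNReal.ofReal ((1 / 64) ^ n) ≤ ENNReal.ofReal (Real.exp (n / 2)) := by
    have hVV : V ^ 2 ≠ 0 := pow_ne_zero _ hV0
    have hVVt : V ^ 2 ≠ ⊤ := ENNReal.pow_ne_top hVt
    rw [← mul_assoc, mul_comm _ (V ^ 2), mul_assoc] at h1
    exact (ENNReal.mul_le_mul_iff_right hVV hVVt).mp h1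
  have hc0 : ENNReal.ofReal ((1 / 64 : ℝ) ^ n) ≠ 0 := by
    rw [Ne, ENNReal.ofReal_eq_zero, not_le]; positivity
  rw [← ENNReal.le_div_iff_mul_le (Or.inl hc0) (Or.inl (by finiteness))] at h9
  refine h9.trans ?_
  rw [← ENNReal.ofReal_div_of_pos (by positivity)]
  apply ENNReal.ofReal_le_ofReal
  rw [div_eq_mul_inv, ← inv_pow]
  norm_num
  rw [mul_comm]

/-- The mean of the operator norm of a Gaussian matrix. -/
theorem opn_mean [Nonempty ι] :
    ∫⁻ G, ENNReal.ofReal (opn G) ∂(mu2 ι) ≤ ENNReal.ofReal (10 * √(Fintype.card ι)) := by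
  have h1 := opn_exp (0 : ι → ι → ℝ)
  set n := Fintype.card ι with hn
  have hnpos : 0 < n := Fintype.card_pos
  set θ : ℝ := √n with hθ
  have hθ0 : 0 < θ := Real.sqrt_pos.mpr (by exact_mod_cast hnpos)
  have hθ2 : θ ^ 2 = n := Real.sq_sqrt (Nat.cast_nonneg _)
  set c : ℝ := n * (Real.log 64 + 1 / 2) with hc
  have hexp : 64 ^ n * Real.exp (n / 2) = Real.exp c := by
    rw [hc, mul_add, Real.exp_add, ← Real.exp_log (show (0 : ℝ) < 64 ^ n by positivity),
      Real.log_pow]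
    congr 1
    congr 1
    ring
  rw [hexp] at h1
  have hc1 : (1 : ℝ) ≤ c := by
    have h2 : (1 : ℝ) ≤ Real.log 64 := by
      rw [Real.le_log_iff_exp_le (by norm_num)]
      have := Real.exp_one_lt_d9
      linarith
    have h3 : (1 : ℝ) ≤ n := by exact_mod_cast hnpos
    nlinarith
  -- pointwise bound
  have hpt : ∀ G : ι → ι → ℝ, ENNReal.ofReal (opn G) ≤ ENNReal.ofReal (2 / θ * (c - 1)) +
      ENNReal.ofReal (2 / θ * Real.exp (-c)) * ENNReal.ofReal (Real.exp (θ * opn G / 2)) := by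
    intro G
    rw [← ENNReal.ofReal_mul (by positivity), ← ENNReal.ofReal_add
      (mul_nonneg (by positivity) (by linarith)) (by positivity)]
    apply ENNReal.ofReal_le_ofReal
    rw [mul_assoc, ← Real.exp_add, ← mul_add, div_mul_eq_mul_div, le_div_iff₀ hθ0]
    have := Real.add_one_le_exp (-c + θ * opn G / 2)
    nlinarith
  have hmo : Measurable fun G : ι → ι → ℝ => ENNReal.ofReal (Real.exp (θ * opn G / 2)) := by
    apply ENNReal.measurable_ofReal.comp
    apply Continuous.measurable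
    have := opn_cont (ι := ι)
    fun_prop
  refine (lintegral_mono hpt).trans ?_
  rw [lintegral_add_left measurable_const, lintegral_const, measure_univ, mul_one,
    lintegral_const_mul _ hmo]
  calc ENNReal.ofReal (2 / θ * (c - 1)) + ENNReal.ofReal (2 / θ * Real.exp (-c)) *
        ∫⁻ G, ENNReal.ofReal (Real.exp (θ * opn G / 2)) ∂(mu2 ι)
      ≤ ENNReal.ofReal (2 / θ * (c - 1)) + ENNReal.ofReal (2 / θ * Real.exp (-c)) *
        ENNReal.ofReal (Real.exp c) := by gcongr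
    _ = ENNReal.ofReal (2 / θ * c) := by
        rw [← ENNReal.ofReal_mul (by positivity), ← ENNReal.ofReal_add
          (mul_nonneg (by positivity) (by linarith)) (by positivity), mul_assoc,
          ← Real.exp_add]
        congr 1
        rw [neg_add_cancel, Real.exp_zero]
        ring
    _ ≤ ENNReal.ofReal (10 * θ) := by
        apply ENNReal.ofReal_le_ofReal
        rw [hc, ← hθ2]
        have h5 : 2 / θ * (θ ^ 2 * (Real.log 64 + 1 / 2)) = 2 * θ * (Real.log 64 + 1 / 2) := by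
          field_simp
        rw [h5]
        have h6 : Real.log 64 ≤ 9 / 2 := by
          have h7 : (64 : ℝ) = 2 ^ 6 := by norm_num
          rw [h7, Real.log_pow]
          have := Real.log_two_lt_d9
          push_cast
          linarith
        nlinarith

end Pool.Agent.R860.CG
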