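import Pool.Agent.R860.CG.Row
import Pool.Agent.R860.CG.OpNorm

/-!
# The core estimate
-/

set_option autoImplicit false

namespace Pool.Agent.R860.CG

open MeasureTheory ProbabilityTheory Set Matrix
open scoped ENNReal
open Pool.Agent.R979.SV

variable {ι : Type} [Fintype ι] [DecidableEq ι]

theorem antisym (M : ι → ι → ℝ) (a b : ι → ℝ) :
    |a ⬝ᵥ (Matrix.of M *ᵥ b) - b ⬝ᵥ (Matrix.of M *ᵥ a)| ≤
      2 * opn M * √((a ⬝ᵥ a) * (b ⬝ᵥ b) - (a ⬝ᵥ b) ^ 2) := by
  have haa0 : 0 ≤ a ⬝ᵥ a := Finset.sum_nonneg fun i _ => mul_self_nonneg _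
  rcases haa0.eq_or_lt with h | haa
  · have ha : a = 0 := dotProduct_self_eq_zero.mp h.symm
    rw [ha]
    simp
  · set ρ := (a ⬝ᵥ b) / (a ⬝ᵥ a) with hρ
    set b' : ι → ℝ := b - ρ • a with hb'
    have hb : b = b' + ρ • a := by rw [hb']; abel
    have h1 : a ⬝ᵥ (Matrix.of M *ᵥ b) - b ⬝ᵥ (Matrix.of M *ᵥ a) =
        a ⬝ᵥ (Matrix.of M *ᵥ b') - b' ⬝ᵥ (Matrix.of M *ᵥ a) := by
      have e1 : Matrix.of M *ᵥ b = Matrix.of M *ᵥ b' + ρ • (Matrix.of M *ᵥ a) := by
        conv_lhs => rw [hb]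
        rw [Matrix.mulVec_add, Matrix.mulVec_smul]
      have e2 : b ⬝ᵥ (Matrix.of M *ᵥ a) = b' ⬝ᵥ (Matrix.of M *ᵥ a) +
          ρ * (a ⬝ᵥ (Matrix.of M *ᵥ a)) := by
        conv_lhs => rw [hb]
        rw [add_dotProduct, smul_dotProduct, smul_eq_mul]
      rw [e1, e2, dotProduct_add, dotProduct_smul ρ a, smul_eq_mul]
      ring
    have hbb' : (a ⬝ᵥ a) * (b' ⬝ᵥ b') = (a ⬝ᵥ a) * (b ⬝ᵥ b) - (a ⬝ᵥ b) ^ 2 := by
      simp only [hb', hρ, sub_dotProduct, dotProduct_sub, smul_dotProduct, dotProduct_smul,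
        smul_eq_mul, dotProduct_comm b a]
      field_simp
      ring
    rw [h1, ← hbb', Real.sqrt_mul haa0]
    have h2 := opn_bil M a b'
    have h3 := opn_bil M b' a
    have h4 := abs_sub (a ⬝ᵥ (Matrix.of M *ᵥ b')) (b' ⬝ᵥ (Matrix.of M *ᵥ a))
    nlinarith

/-- A unit vector killed by all rows except one. -/
theorem exists_q (w : ℂ) (M : ι → ι → ℝ) (k : ι) :
    ∃ a b : ι → ℝ, a ⬝ᵥ a + b ⬝ᵥ b = 1 ∧ ∀ i, i ≠ k →
      w.re * a i - w.im * b i - M i ⬝ᵥ a = 0 ∧ w.im * a i + w.re * b i - M i ⬝ᵥ b = 0 := by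
  set N : Matrix ι ι ℂ := (Matrix.of fun i j => (if i = j then w else 0) - (M i j : ℂ)) with hN
  have h1 : (N.updateRow k 0).det = 0 := by
    apply Matrix.det_eq_zero_of_row_eq_zero k
    intro j
    simp
  obtain ⟨v, hv, hv2⟩ := Matrix.exists_mulVec_eq_zero_iff.mpr h1
  have hpos : 0 < ∑ i, ((v i).re ^ 2 + (v i).im ^ 2) := by
    obtain ⟨i, hi⟩ := Function.ne_iff.mp hv
    have hi' : v i ≠ 0 := hi
    apply Finset.sum_pos' (fun i _ => by positivity)
    refine ⟨i, Finset.mem_univ i, ?_⟩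
    have h2 : 0 < Complex.normSq (v i) := Complex.normSq_pos.mpr hi'
    rw [Complex.normSq_apply] at h2
    nlinarith
  set S := ∑ i, ((v i).re ^ 2 + (v i).im ^ 2) with hS
  set ρ := (√S)⁻¹ with hρ
  have hρ2 : ρ ^ 2 * S = 1 := by
    rw [hρ, inv_pow, Real.sq_sqrt hpos.le, inv_mul_cancel₀ hpos.ne']
  refine ⟨fun i => ρ * (v i).re, fun i => ρ * (v i).im, ?_, ?_⟩
  · rw [← hρ2, hS, Finset.mul_sum]
    unfold dotProduct
    rw [← Finset.sum_add_distrib]
    apply Finset.sum_congr rfl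
    intro i _
    ring
  · intro i hi
    have h2 := congrFun hv2 i
    simp only [Matrix.mulVec, dotProduct, Pi.zero_apply] at h2
    have h3 : ∀ j, N.updateRow k 0 i j = N i j := by
      intro j
      rw [Matrix.updateRow_ne hi]
    simp only [h3] at h2
    have h4 : w * v i - ∑ j, (M i j : ℂ) * v j = 0 := by
      rw [← h2]
      simp only [hN, Matrix.of_apply, sub_mul, ite_mul, zero_mul, Finset.sum_sub_distrib,
        Finset.sum_ite_eq, Finset.mem_univ, if_true]
    have hre := congrArg Complex.re h4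
    have him := congrArg Complex.im h4
    simp only [Complex.sub_re, Complex.mul_re, Complex.re_sum, Complex.ofReal_re,
      Complex.ofReal_im, zero_mul, sub_zero, Complex.zero_re] at hre
    simp only [Complex.sub_im, Complex.mul_im, Complex.im_sum, Complex.ofReal_re,
      Complex.ofReal_im, zero_mul, add_zero, Complex.zero_im] at him
    have e1 : ∀ f : ι → ℝ, M i ⬝ᵥ (fun j => ρ * f j) = ρ * ∑ j, M i j * f j := by
      intro f
      unfold dotProduct
      rw [Finset.mul_sum]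
      apply Finset.sum_congr rfl
      intro j _
      ring
    constructor
    · rw [e1]
      linear_combination ρ * hre
    · rw [e1]
      linear_combination ρ * him

/-- The Euclidean norm of a row is at most the operator norm. -/
theorem row_norm_le (A : ι → ι → ℝ) (k : ι) (c : ι → ℝ) :
    |A k ⬝ᵥ c| ≤ opn A * √(c ⬝ᵥ c) := by
  have h1 := opn_bil A (Pi.single k 1) c
  have h2 : (Pi.single k (1 : ℝ) : ι → ℝ) ⬝ᵥ (Matrix.of A *ᵥ c) = A k ⬝ᵥ c := by
    rw [single_one_dotProduct]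
    rfl
  have h3 : (Pi.single k (1 : ℝ) : ι → ℝ) ⬝ᵥ (Pi.single k (1 : ℝ)) = 1 := by
    rw [single_one_dotProduct, Pi.single_eq_same]
  rw [h2, h3, Real.sqrt_one, mul_one] at h1
  exact h1

theorem opn_update (A : ι → ι → ℝ) (k : ι) : opn (Function.update A k 0) ≤ opn A := by
  apply opn_le _ (opn_nonneg _)
  intro x y
  have h1 : x ⬝ᵥ (Matrix.of (Function.update A k 0) *ᵥ y) =
      (Function.update x k 0) ⬝ᵥ (Matrix.of A *ᵥ y) := by
    unfold dotProduct
    apply Finset.sum_congr rfl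
    intro i _
    by_cases hi : i = k
    · subst hi
      simp [Matrix.mulVec, dotProduct]
    · rw [Function.update_of_ne hi]
      congr 1
      unfold Matrix.mulVec dotProduct
      simp only [Matrix.of_apply]
      rw [Function.update_of_ne hi]
  have h2 : (Function.update x k 0) ⬝ᵥ (Function.update x k 0) ≤ x ⬝ᵥ x := by
    unfold dotProduct
    apply Finset.sum_le_sum
    intro i _
    by_cases hi : i = k
    · subst hi
      rw [Function.update_self]
      nlinarith [mul_self_nonneg (x i)]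
    · rw [Function.update_of_ne hi]
  rw [h1]
  refine (opn_bil A _ y).trans ?_
  have h3 := Real.sqrt_le_sqrt h2
  have := opn_nonneg A
  gcongr

/-- The key inequality. -/
theorem key_ineq (w : ℂ) (A G : ι → ι → ℝ) (k : ι) (a b : ι → ℝ)
    (hab : a ⬝ᵥ a + b ⬝ᵥ b = 1)
    (hq : ∀ i, i ≠ k → w.re * a i - w.im * b i - (A + G) i ⬝ᵥ a = 0 ∧
      w.im * a i + w.re * b i - (A + G) i ⬝ᵥ b = 0) {s : ℝ} (hs : 0 ≤ s) (y : ι → ℝ)
    (hy : (w.re * a k - w.im * b k - A k ⬝ᵥ a - y ⬝ᵥ a) ^ 2 +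
      (w.im * a k + w.re * b k - A k ⬝ᵥ b - y ⬝ᵥ b) ^ 2 ≤ s ^ 2) :
    |w.im| ≤ s + (3 * opn A + 2 * opn (Function.update G k 0)) *
      √((a ⬝ᵥ a) * (b ⬝ᵥ b) - (a ⬝ᵥ b) ^ 2) + |y ⬝ᵥ (a k • b - b k • a)| := by
  set lR := w.re * a k - w.im * b k - A k ⬝ᵥ a - y ⬝ᵥ a with hlR
  set lI := w.im * a k + w.re * b k - A k ⬝ᵥ b - y ⬝ᵥ b with hlI
  set M0 := Function.update (A + G) k 0 with hM0
  set c := a k • b - b k • a with hc
  have hid : w.im = (a ⬝ᵥ (Matrix.of M0 *ᵥ b) - b ⬝ᵥ (Matrix.of M0 *ᵥ a)) + A k ⬝ᵥ c +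
      y ⬝ᵥ c + (a k * lI - b k * lR) := by
    -- sum over all rows
    have hM0a : ∀ x z : ι → ℝ, x ⬝ᵥ (Matrix.of M0 *ᵥ z) =
        ∑ i ∈ Finset.univ.erase k, x i * ((A + G) i ⬝ᵥ z) := by
      intro x z
      unfold dotProduct
      rw [← Finset.add_sum_erase Finset.univ _ (Finset.mem_univ k)]
      have h0 : (Matrix.of M0 *ᵥ z) k = 0 := by
        simp [Matrix.mulVec, hM0, dotProduct]
      rw [h0, mul_zero, zero_add]
      apply Finset.sum_congr rfl
      intro i hi
      have hi' : i ≠ k := Finset.ne_of_mem_erase hi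
      congr 1
      unfold Matrix.mulVec dotProduct
      simp only [Matrix.of_apply, hM0]
      rw [Function.update_of_ne hi']
    have hsum : w.im * (a ⬝ᵥ a + b ⬝ᵥ b) =
        w.im * (a k ^ 2 + b k ^ 2) + ∑ i ∈ Finset.univ.erase k,
          (a i * ((A + G) i ⬝ᵥ b) - b i * ((A + G) i ⬝ᵥ a)) := by
      have h1 : a ⬝ᵥ a + b ⬝ᵥ b = (a k ^ 2 + b k ^ 2) +
          ∑ i ∈ Finset.univ.erase k, (a i ^ 2 + b i ^ 2) := by
        unfold dotProduct
        rw [← Finset.sum_add_distrib,
          ← Finset.add_sum_erase Finset.univ _ (Finset.mem_univ k)]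
        congr 1
        · ring
        · apply Finset.sum_congr rfl
          intro i _
          ring
      rw [h1, mul_add, Finset.mul_sum]
      congr 1
      apply Finset.sum_congr rfl
      intro i hi
      obtain ⟨h2, h3⟩ := hq i (Finset.ne_of_mem_erase hi)
      linear_combination a i * h3 - b i * h2
    rw [hab, mul_one, Finset.sum_sub_distrib, ← hM0a, ← hM0a] at hsum
    have hck : ∀ z : ι → ℝ, z ⬝ᵥ c = a k * (z ⬝ᵥ b) - b k * (z ⬝ᵥ a) := by
      intro z
      rw [hc, dotProduct_sub, dotProduct_smul, dotProduct_smul, smul_eq_mul, smul_eq_mul]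
    rw [hck, hck, hlR, hlI]
    linear_combination hsum
  have h1 := antisym M0 a b
  set r := √((a ⬝ᵥ a) * (b ⬝ᵥ b) - (a ⬝ᵥ b) ^ 2) with hr
  have hr0 : 0 ≤ r := Real.sqrt_nonneg _
  have h2 : |A k ⬝ᵥ c| ≤ opn A * r := by
    refine (row_norm_le A k c).trans ?_
    have := Real.sqrt_le_sqrt (c_bound k a b)
    exact mul_le_mul_of_nonneg_left this (opn_nonneg A)
  have h3 : |a k * lI - b k * lR| ≤ s := by
    apply abs_le_of_sq_le_sq _ hs
    have hk : a k ^ 2 + b k ^ 2 ≤ 1 := by
      rw [← hab]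
      have e1 : a k ^ 2 ≤ a ⬝ᵥ a := by
        rw [sq]
        exact Finset.single_le_sum (f := fun i => a i * a i) (fun i _ => mul_self_nonneg _)
          (Finset.mem_univ k)
      have e2 : b k ^ 2 ≤ b ⬝ᵥ b := by
        rw [sq]
        exact Finset.single_le_sum (f := fun i => b i * b i) (fun i _ => mul_self_nonneg _)
          (Finset.mem_univ k)
      linarith
    have e3 : (a k * lI - b k * lR) ^ 2 ≤ (a k ^ 2 + b k ^ 2) * (lR ^ 2 + lI ^ 2) := by
      nlinarith [sq_nonneg (a k * lR + b k * lI)]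
    have e4 : 0 ≤ lR ^ 2 + lI ^ 2 := by positivity
    nlinarith
  have h4 : opn M0 ≤ opn A + opn (Function.update G k 0) := by
    have e1 : M0 = Function.update A k 0 + Function.update G k 0 := by
      rw [hM0]
      funext i
      by_cases hi : i = k
      · subst hi; simp
      · simp [Function.update_of_ne hi]
    rw [e1]
    exact (opn_add _ _).trans (by linarith [opn_update A k])
  have h5 : |w.im| ≤ |a ⬝ᵥ (Matrix.of M0 *ᵥ b) - b ⬝ᵥ (Matrix.of M0 *ᵥ a)| + |A k ⬝ᵥ c| +
      |y ⬝ᵥ c| + |a k * lI - b k * lR| := by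
    conv_lhs => rw [hid]
    refine (abs_add_le _ _).trans ?_
    gcongr
    refine (abs_add_le _ _).trans ?_
    gcongr
    exact abs_add_le _ _
  have h6 : 2 * opn M0 * r ≤ 2 * (opn A + opn (Function.update G k 0)) * r := by
    gcongr
  nlinarith

/-- `(w - Mᵀ) u`. -/
noncomputable def ct (w : ℂ) (M : ι → ι → ℝ) (u : ι → ℂ) : ι → ℂ :=
  fun i => w * u i - ∑ j, (M j i : ℂ) * u j

/-- The event that an almost kernel vector is not almost orthogonal to `v`. -/
def EV (A : ι → ι → ℝ) (w : ℂ) (t c : ℝ) (v : ι → ℝ) : Set (ι → ι → ℝ) :=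
  {G | ∃ u : ι → ℂ, ∑ i, ‖u i‖ ^ 2 = 1 ∧ ∑ i, ‖ct w (A + G) u i‖ ^ 2 ≤ t ^ 2 ∧
    c ≤ ‖∑ i, (v i : ℂ) * u i‖}

theorem EV_closed (A : ι → ι → ℝ) (w : ℂ) (t c : ℝ) (v : ι → ℝ) : IsClosed (EV A w t c v) := by
  set K : Set (ι → ℂ) := {u | ∑ i, ‖u i‖ ^ 2 = 1} with hK
  have hKc : IsCompact K := by
    apply Metric.isCompact_of_isClosed_isBounded
    · exact isClosed_eq (by fun_prop) continuous_const
    · rw [Metric.isBounded_iff_subset_closedBall 0]
      refine ⟨1, ?_⟩
      intro u hu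
      rw [Metric.mem_closedBall, dist_zero_right, pi_norm_le_iff_of_nonneg zero_le_one]
      intro i
      have h1 : ‖u i‖ ^ 2 ≤ ∑ i, ‖u i‖ ^ 2 :=
        Finset.single_le_sum (f := fun i => ‖u i‖ ^ 2) (fun i _ => by positivity)
          (Finset.mem_univ i)
      have h2 : ∑ i, ‖u i‖ ^ 2 = 1 := hu
      rw [h2] at h1
      have := norm_nonneg (u i)
      nlinarith
  have : CompactSpace K := isCompact_iff_compactSpace.mp hKc
  have hcl : IsClosed {p : (ι → ι → ℝ) × K | ∑ i, ‖ct w (A + p.1) (p.2 : ι → ℂ) i‖ ^ 2 ≤ t ^ 2 ∧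
      c ≤ ‖∑ i, (v i : ℂ) * (p.2 : ι → ℂ) i‖} := by
    have c1 : IsClosed {p : (ι → ι → ℝ) × K |
        ∑ i, ‖ct w (A + p.1) (p.2 : ι → ℂ) i‖ ^ 2 ≤ t ^ 2} := by
      apply isClosed_le _ continuous_const
      unfold ct
      simp only [Pi.add_apply, Complex.ofReal_add]
      have hc : ∀ i, Continuous fun p : (ι → ι → ℝ) × K => (p.2 : ι → ℂ) i := by
        intro i
        exact (continuous_apply i).comp (continuous_subtype_val.comp continuous_snd)
      have hd : ∀ i j, Continuous fun p : (ι → ι → ℝ) × K => ((p.1 i j : ℝ) : ℂ) := by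
        intro i j
        exact Complex.continuous_ofReal.comp
          ((continuous_apply j).comp ((continuous_apply i).comp continuous_fst))
      apply continuous_finsetSum
      intro i _
      apply Continuous.pow
      apply Continuous.norm
      apply Continuous.sub
      · exact continuous_const.mul (hc i)
      · apply continuous_finsetSum
        intro j _
        exact (continuous_const.add (hd j i)).mul (hc j)
    have c2 : IsClosed {p : (ι → ι → ℝ) × K | c ≤ ‖∑ i, (v i : ℂ) * (p.2 : ι → ℂ) i‖} := by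
      apply isClosed_le continuous_const
      have hc : ∀ i, Continuous fun p : (ι → ι → ℝ) × K => (p.2 : ι → ℂ) i := by
        intro i
        exact (continuous_apply i).comp (continuous_subtype_val.comp continuous_snd)
      apply Continuous.norm
      apply continuous_finsetSum
      intro i _
      exact continuous_const.mul (hc i)
    exact c1.inter c2
  have h2 := (isClosedMap_fst_of_compactSpace (X := ι → ι → ℝ) (Y := K)) _ hcl
  convert h2 using 1
  ext G
  simp only [EV, Set.mem_ofPred_eq, Set.mem_image, Prod.exists, exists_and_right, exists_eq_right]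
  constructor
  · rintro ⟨u, hu, h3, h4⟩
    exact ⟨⟨u, hu⟩, h3, h4⟩
  · rintro ⟨⟨u, hu⟩, h3, h4⟩
    exact ⟨u, hu, h3, h4⟩

/-- Duality. -/
theorem dual_bound (w : ℂ) (M : ι → ι → ℝ) (k : ι) (a b : ι → ℝ)
    (hab : a ⬝ᵥ a + b ⬝ᵥ b = 1)
    (hq : ∀ i, i ≠ k → w.re * a i - w.im * b i - M i ⬝ᵥ a = 0 ∧
      w.im * a i + w.re * b i - M i ⬝ᵥ b = 0) {t c : ℝ} (ht : 0 ≤ t) (hc : 0 < c)
    (u : ι → ℂ) (hu2 : ∑ i, ‖ct w M u i‖ ^ 2 ≤ t ^ 2) (huk : c ≤ ‖u k‖) :
    (w.re * a k - w.im * b k - M k ⬝ᵥ a) ^ 2 + (w.im * a k + w.re * b k - M k ⬝ᵥ b) ^ 2 ≤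
      (t / c) ^ 2 := by
  set q : ι → ℂ := fun i => ⟨a i, b i⟩ with hqdef
  set L : ι → ℂ := fun i => w * q i - ∑ j, (M i j : ℂ) * q j with hL
  have hLre : ∀ i, (L i).re = w.re * a i - w.im * b i - M i ⬝ᵥ a := by
    intro i
    simp [hL, hqdef, dotProduct]
  have hLim : ∀ i, (L i).im = w.im * a i + w.re * b i - M i ⬝ᵥ b := by
    intro i
    simp [hL, hqdef, dotProduct]
    ring
  have hL0 : ∀ i, i ≠ k → L i = 0 := by
    intro i hi
    apply Complex.ext
    · rw [hLre]; exact (hq i hi).1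
    · rw [hLim]; exact (hq i hi).2
  have hsw : ∑ i, L i * u i = ∑ i, q i * ct w M u i := by
    simp only [hL, ct, sub_mul, mul_sub, Finset.sum_sub_distrib]
    congr 1
    · apply Finset.sum_congr rfl
      intro i _
      ring
    · simp only [Finset.sum_mul, Finset.mul_sum]
      rw [Finset.sum_comm]
      apply Finset.sum_congr rfl
      intro i _
      apply Finset.sum_congr rfl
      intro j _
      ring
  have hLk : ∑ i, L i * u i = L k * u k := by
    apply Finset.sum_eq_single k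
    · intro i _ hi
      rw [hL0 i hi, zero_mul]
    · intro h; exact absurd (Finset.mem_univ k) h
  have hCS : ‖∑ i, q i * ct w M u i‖ ^ 2 ≤ (∑ i, ‖q i‖ ^ 2) * ∑ i, ‖ct w M u i‖ ^ 2 := by
    have h1 : ‖∑ i, q i * ct w M u i‖ ≤ ∑ i, ‖q i‖ * ‖ct w M u i‖ := by
      refine (norm_sum_le _ _).trans (le_of_eq ?_)
      apply Finset.sum_congr rfl
      intro i _
      rw [norm_mul]
    have h2 := Finset.sum_mul_sq_le_sq_mul_sq Finset.univ (fun i => ‖q i‖)
      (fun i => ‖ct w M u i‖)
    have h3 : 0 ≤ ‖∑ i, q i * ct w M u i‖ := norm_nonneg _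
    calc ‖∑ i, q i * ct w M u i‖ ^ 2 ≤ (∑ i, ‖q i‖ * ‖ct w M u i‖) ^ 2 := by gcongr
      _ ≤ _ := h2
  have hqn : ∑ i, ‖q i‖ ^ 2 = 1 := by
    rw [← hab]
    unfold dotProduct
    rw [← Finset.sum_add_distrib]
    apply Finset.sum_congr rfl
    intro i _
    rw [← Complex.normSq_eq_norm_sq, Complex.normSq_apply]
  rw [hqn, one_mul, ← hsw, hLk, norm_mul, mul_pow] at hCS
  have h5 : ‖L k‖ ^ 2 * c ^ 2 ≤ t ^ 2 := by
    calc ‖L k‖ ^ 2 * c ^ 2 ≤ ‖L k‖ ^ 2 * ‖u k‖ ^ 2 := by gcongr
      _ ≤ t ^ 2 := hCS.trans hu2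
  rw [← hLre, ← hLim, div_pow, le_div_iff₀ (by positivity)]
  have h6 : ‖L k‖ ^ 2 = (L k).re ^ 2 + (L k).im ^ 2 := by
    rw [← Complex.normSq_eq_norm_sq, Complex.normSq_apply]
    ring
  rw [← h6]
  exact h5

/-- The core estimate. -/
theorem core (A : ι → ι → ℝ) (w : ℂ) (hw : w.im ≠ 0) {t c : ℝ} (ht : 0 ≤ t) (hc : 0 < c)
    (k : ι) :
    mu2 ι (EV A w t c (Pi.single k 1)) ≤
      ENNReal.ofReal ((6 * opn A + 44 * √(Fintype.card ι)) * (t / c) ^ 2 / |w.im|) := by
  set s := t / c with hs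
  have hs0 : 0 ≤ s := by positivity
  have hwp : 0 < |w.im| := abs_pos.mpr hw
  set D : (ι → ι → ℝ) → ℝ := fun G => 3 * opn A + 2 * opn (Function.update G k 0) with hD
  have hmS : MeasurableSet (EV A w t c (Pi.single k 1)) := (EV_closed _ _ _ _ _).measurableSet
  have hDm : Measurable fun G => ENNReal.ofReal ((2 * D G + 4) * s ^ 2 / |w.im|) := by
    apply ENNReal.measurable_ofReal.comp
    apply Continuous.measurable
    have h1 := opn_cont (ι := ι)
    have h2 : Continuous fun G : ι → ι → ℝ => Function.update G k 0 := by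
      exact continuous_id.update k continuous_const
    have h3 : Continuous D := by
      rw [hD]
      exact continuous_const.add (continuous_const.mul (h1.comp h2))
    fun_prop
  have step : ∫⁻ G, (EV A w t c (Pi.single k 1)).indicator 1 G ∂(mu2 ι) ≤
      ∫⁻ G, ENNReal.ofReal ((2 * D G + 4) * s ^ 2 / |w.im|) ∂(mu2 ι) := by
    apply lintegral_le_of_lmarginal_le {k} (measurable_one.indicator hmS) hDm
    rw [lmarginal_singleton, lmarginal_singleton]
    intro G
    simp only
    have hDG : ∀ y : ι → ℝ, D (Function.update G k y) = D G := by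
      intro y
      simp only [hD, Function.update_idem]
    simp only [hDG, lintegral_const, measure_univ, mul_one]
    obtain ⟨a, b, hab, hq⟩ := exists_q w (A + G) k
    have hDG0 : 0 ≤ D G := by
      have h1 := opn_nonneg A
      have h2 := opn_nonneg (Function.update G k 0)
      simp only [hD]
      positivity
    have hrow := row_main k a b hab (w.re * a k - w.im * b k - A k ⬝ᵥ a)
      (w.im * a k + w.re * b k - A k ⬝ᵥ b) hs0 hwp hDG0
      (fun y hy => key_ineq w A G k a b hab hq hs0 y hy)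
    refine le_trans (lintegral_mono fun y => ?_) hrow
    by_cases hy : Function.update G k y ∈ EV A w t c (Pi.single k 1)
    · rw [Set.indicator_of_mem hy, Set.indicator_of_mem]
      · simp
      · obtain ⟨u, hu1, hu2, hu3⟩ := hy
        have huk : c ≤ ‖u k‖ := by
          have h1 : ∑ i, ((Pi.single k (1 : ℝ) : ι → ℝ) i : ℂ) * u i = u k := by
            rw [Finset.sum_eq_single k]
            · simp
            · intro i _ hi
              simp [Pi.single_eq_of_ne hi]
            · intro h; exact absurd (Finset.mem_univ k) h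
          rw [h1] at hu3
          exact hu3
        have hq' : ∀ i, i ≠ k → w.re * a i - w.im * b i - (A + Function.update G k y) i ⬝ᵥ a = 0 ∧
            w.im * a i + w.re * b i - (A + Function.update G k y) i ⬝ᵥ b = 0 := by
          intro i hi
          have h1 : (A + Function.update G k y) i = (A + G) i := by
            simp [Function.update_of_ne hi]
          rw [h1]
          exact hq i hi
        have h2 := dual_bound w (A + Function.update G k y) k a b hab hq' ht hc u hu2 huk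
        have h3 : (A + Function.update G k y) k = A k + y := by
          simp
        rw [h3, add_dotProduct, add_dotProduct] at h2
        simp only [Set.mem_ofPred_eq]
        rw [hs]
        convert h2 using 2
        · ring
        · ring
    · rw [Set.indicator_of_notMem hy]
      exact zero_le
  rw [lintegral_indicator_one hmS] at step
  refine step.trans ?_
  have : Nonempty ι := ⟨k⟩
  have hmean := opn_mean (ι := ι)
  have hsq0 : 0 ≤ √(Fintype.card ι) := Real.sqrt_nonneg _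
  have hn1 : 1 ≤ √(Fintype.card ι) := by
    rw [Real.one_le_sqrt]
    exact_mod_cast Fintype.card_pos (α := ι)
  have hA := opn_nonneg A
  have hmo : Measurable fun G : ι → ι → ℝ => ENNReal.ofReal (opn G) :=
    ENNReal.measurable_ofReal.comp (opn_cont).measurable
  calc ∫⁻ G, ENNReal.ofReal ((2 * D G + 4) * s ^ 2 / |w.im|) ∂(mu2 ι)
      ≤ ∫⁻ G, (ENNReal.ofReal ((6 * opn A + 4) * s ^ 2 / |w.im|) +
          ENNReal.ofReal (4 * s ^ 2 / |w.im|) * ENNReal.ofReal (opn G)) ∂(mu2 ι) := by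
        apply lintegral_mono
        intro G
        simp only
        have hG := opn_nonneg G
        rw [← ENNReal.ofReal_mul (by positivity), ← ENNReal.ofReal_add (by positivity)
          (by positivity)]
        apply ENNReal.ofReal_le_ofReal
        have h1 : (6 * opn A + 4) * s ^ 2 / |w.im| + 4 * s ^ 2 / |w.im| * opn G =
            (6 * opn A + 4 + 4 * opn G) * s ^ 2 / |w.im| := by ring
        rw [h1]
        have h2 := opn_update G k
        have h3 : 2 * D G + 4 ≤ 6 * opn A + 4 + 4 * opn G := by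
          simp only [hD]
          linarith
        gcongr
    _ = ENNReal.ofReal ((6 * opn A + 4) * s ^ 2 / |w.im|) +
          ENNReal.ofReal (4 * s ^ 2 / |w.im|) * ∫⁻ G, ENNReal.ofReal (opn G) ∂(mu2 ι) := by
        rw [lintegral_add_left measurable_const, lintegral_const, measure_univ, mul_one,
          lintegral_const_mul _ hmo]
    _ ≤ ENNReal.ofReal ((6 * opn A + 4) * s ^ 2 / |w.im|) +
          ENNReal.ofReal (4 * s ^ 2 / |w.im|) * ENNReal.ofReal (10 * √(Fintype.card ι)) := by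
        gcongr
    _ = ENNReal.ofReal ((6 * opn A + 4 + 40 * √(Fintype.card ι)) * s ^ 2 / |w.im|) := by
        rw [← ENNReal.ofReal_mul (by positivity), ← ENNReal.ofReal_add (by positivity)
          (by positivity)]
        congr 1
        ring
    _ ≤ _ := by
        apply ENNReal.ofReal_le_ofReal
        have h3 : 6 * opn A + 4 + 40 * √(Fintype.card ι) ≤ 6 * opn A + 44 * √(Fintype.card ι) := by
          linarith
        gcongr

end Pool.Agent.R860.CG
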