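import Pool.Agent.R979.SV.Rows

/-!
# One Gaussian row
-/

set_option autoImplicit false

namespace Pool.Agent.R860.CG

open MeasureTheory ProbabilityTheory Set Matrix
open scoped ENNReal
open Pool.Agent.R979.SV

/-- Small ball estimate on the line with a weight. -/
theorem g1 {α s C : ℝ} (c : ℝ) (hα : 0 < α) (hs : 0 ≤ s) (hC : 0 ≤ C) (f : ℝ → ℝ)
    (hfm : Measurable f) (hf : ∀ x, f x * Real.exp (-(x ^ 2) / 2) ≤ C) :
    ∫⁻ x, {x | |c - α * x| ≤ s}.indicator (fun x => ENNReal.ofReal (f x)) x ∂gam ≤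
      ENNReal.ofReal (C * s / α) := by
  have hset : {x : ℝ | |c - α * x| ≤ s} = Icc ((c - s) / α) ((c + s) / α) := by
    ext x
    simp only [Set.mem_ofPred_eq, Set.mem_Icc, abs_le, div_le_iff₀ hα, le_div_iff₀ hα]
    constructor
    · rintro ⟨h1, h2⟩; constructor <;> linarith
    · rintro ⟨h1, h2⟩; constructor <;> linarith
  have hmS : MeasurableSet {x : ℝ | |c - α * x| ≤ s} := by
    rw [hset]; exact measurableSet_Icc
  have hmeas : Measurable ({x : ℝ | |c - α * x| ≤ s}.indicator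
      (fun x => ENNReal.ofReal (f x))) := (ENNReal.measurable_ofReal.comp hfm).indicator hmS
  rw [show gam = gaussianReal 0 1 from rfl, gaussianReal_of_var_ne_zero 0 one_ne_zero,
    lintegral_withDensity_eq_lintegral_mul _ (measurable_gaussianPDF 0 1) hmeas]
  have hpt : ∀ x : ℝ, (gaussianPDF 0 1 * {x : ℝ | |c - α * x| ≤ s}.indicator
      (fun x => ENNReal.ofReal (f x))) x ≤
      {x : ℝ | |c - α * x| ≤ s}.indicator (fun _ => ENNReal.ofReal (C / 2)) x := by
    intro x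
    simp only [Pi.mul_apply]
    by_cases hx : x ∈ {x : ℝ | |c - α * x| ≤ s}
    · rw [Set.indicator_of_mem hx, Set.indicator_of_mem hx]
      unfold gaussianPDF
      rw [← ENNReal.ofReal_mul (gaussianPDFReal_nonneg _ _ _)]
      apply ENNReal.ofReal_le_ofReal
      unfold gaussianPDFReal
      simp only [NNReal.coe_one, mul_one, sub_zero]
      have h1 : (2 : ℝ) ≤ √(2 * Real.pi) := by
        apply Real.le_sqrt_of_sq_le
        have := Real.pi_gt_three
        linarith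
      have h2 : (√(2 * Real.pi))⁻¹ ≤ 1 / 2 := by
        rw [inv_eq_one_div]
        exact one_div_le_one_div_of_le (by norm_num) h1
      have h3 : 0 ≤ (√(2 * Real.pi))⁻¹ := by positivity
      have h4 := hf x
      calc (√(2 * Real.pi))⁻¹ * Real.exp (-x ^ 2 / 2) * f x
          = (√(2 * Real.pi))⁻¹ * (f x * Real.exp (-(x ^ 2) / 2)) := by ring
        _ ≤ (√(2 * Real.pi))⁻¹ * C := mul_le_mul_of_nonneg_left h4 h3
        _ ≤ 1 / 2 * C := mul_le_mul_of_nonneg_right h2 hC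
        _ = C / 2 := by ring
    · rw [Set.indicator_of_notMem hx, Set.indicator_of_notMem hx, mul_zero]
  refine (lintegral_mono hpt).trans ?_
  rw [lintegral_indicator hmS, setLIntegral_const, hset, Real.volume_Icc,
    ← ENNReal.ofReal_mul (by positivity)]
  apply ENNReal.ofReal_le_ofReal
  have : (c + s) / α - (c - s) / α = 2 * s / α := by ring
  rw [this]
  apply le_of_eq
  ring

theorem abs_mul_exp (x : ℝ) : |x| * Real.exp (-(x ^ 2) / 2) ≤ 1 := by
  have h1 : |x| ≤ Real.exp (x ^ 2 / 2) := by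
    have h2 := Real.add_one_le_exp (x ^ 2 / 2)
    have h3 : |x| ≤ x ^ 2 / 2 + 1 := by
      rw [← sq_abs x]
      nlinarith [sq_nonneg (|x| - 1)]
    linarith
  calc |x| * Real.exp (-(x ^ 2) / 2) ≤ Real.exp (x ^ 2 / 2) * Real.exp (-(x ^ 2) / 2) :=
        mul_le_mul_of_nonneg_right h1 (Real.exp_pos _).le
    _ = 1 := by rw [← Real.exp_add]; norm_num; ring_nf

theorem weight_bound {D : ℝ} (hD : 0 ≤ D) (x : ℝ) :
    (D + |x|) * Real.exp (-(x ^ 2) / 2) ≤ D + 1 := by
  have h1 := abs_mul_exp x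
  have h2 : Real.exp (-(x ^ 2) / 2) ≤ 1 := by
    apply Real.exp_le_one_iff.mpr
    have := sq_nonneg x
    linarith
  nlinarith

variable {ι : Type} [Fintype ι] [DecidableEq ι]

theorem lin_row (y a : ι → ℝ) (w ν : ι → ℝ) (t : ℝ) (h : y = w + t • ν) :
    y ⬝ᵥ a = w ⬝ᵥ a + t * (ν ⬝ᵥ a) := by
  subst h
  rw [add_dotProduct, smul_dotProduct, smul_eq_mul]

/-- two steps -/
theorem two_step (k : ι) (e1 e2 : ι → ℝ) (h1 : e1 ⬝ᵥ e1 = 1) (h2 : e2 ⬝ᵥ e2 = 1)
    (h12 : e1 ⬝ᵥ e2 = 0) {α β s D : ℝ} (γ cR cI : ℝ) (hα : 0 < α) (hβ : 0 < β) (hs : 0 ≤ s)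
    (hD : 0 ≤ D) :
    ∫⁻ y, ({y : ι → ℝ | |cR - α * (y ⬝ᵥ e1)| ≤ s} ∩
      {y : ι → ℝ | |cI - (γ * (y ⬝ᵥ e1) + β * (y ⬝ᵥ e2))| ≤ s}).indicator
        (fun y => ENNReal.ofReal (D + |y ⬝ᵥ e1| + |y ⬝ᵥ e2|)) y ∂(mu1 ι) ≤
      ENNReal.ofReal ((D + 2) * s / α * (s / β)) := by
  have hc1 : Continuous fun y : ι → ℝ => y ⬝ᵥ e1 := by fun_prop
  have hc2 : Continuous fun y : ι → ℝ => y ⬝ᵥ e2 := by fun_prop
  have hS1 : MeasurableSet {y : ι → ℝ | |cR - α * (y ⬝ᵥ e1)| ≤ s} :=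
    (isClosed_le (by fun_prop) continuous_const).measurableSet
  have hS2 : MeasurableSet {y : ι → ℝ | |cI - (γ * (y ⬝ᵥ e1) + β * (y ⬝ᵥ e2))| ≤ s} :=
    (isClosed_le (by fun_prop) continuous_const).measurableSet
  have hm0 : Measurable fun y : ι → ℝ => ENNReal.ofReal (D + |y ⬝ᵥ e1| + |y ⬝ᵥ e2|) :=
    ENNReal.measurable_ofReal.comp (by fun_prop)
  have hm1 : Measurable fun y : ι → ℝ => ENNReal.ofReal ((D + 1 + |y ⬝ᵥ e1|) * (s / β)) :=
    ENNReal.measurable_ofReal.comp (by fun_prop)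
  have e2' : ∑ i, e2 i ^ 2 = 1 := by
    rw [← h2]; unfold dotProduct; exact Finset.sum_congr rfl fun i _ => by ring
  have e1' : ∑ i, e1 i ^ 2 = 1 := by
    rw [← h1]; unfold dotProduct; exact Finset.sum_congr rfl fun i _ => by ring
  have step1 : ∫⁻ y, ({y : ι → ℝ | |cR - α * (y ⬝ᵥ e1)| ≤ s} ∩
      {y : ι → ℝ | |cI - (γ * (y ⬝ᵥ e1) + β * (y ⬝ᵥ e2))| ≤ s}).indicator
        (fun y => ENNReal.ofReal (D + |y ⬝ᵥ e1| + |y ⬝ᵥ e2|)) y ∂(mu1 ι) ≤
      ∫⁻ y, {y : ι → ℝ | |cR - α * (y ⬝ᵥ e1)| ≤ s}.indicator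
        (fun y => ENNReal.ofReal ((D + 1 + |y ⬝ᵥ e1|) * (s / β))) y ∂(mu1 ι) := by
    apply row_le k e2 e2' _ _ (hm0.indicator (hS1.inter hS2)) (hm1.indicator hS1)
    intro w hw
    have hw' : w ⬝ᵥ e2 = 0 := hw
    have hy1 : ∀ t : ℝ, (w + t • e2) ⬝ᵥ e1 = w ⬝ᵥ e1 := by
      intro t
      rw [lin_row _ e1 w e2 t rfl, dotProduct_comm e2 e1, h12]; ring
    have hy2 : ∀ t : ℝ, (w + t • e2) ⬝ᵥ e2 = t := by
      intro t
      rw [lin_row _ e2 w e2 t rfl, h2, hw']; ring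
    by_cases hw1 : |cR - α * (w ⬝ᵥ e1)| ≤ s
    · have hR : ∫⁻ t, {y : ι → ℝ | |cR - α * (y ⬝ᵥ e1)| ≤ s}.indicator
          (fun y => ENNReal.ofReal ((D + 1 + |y ⬝ᵥ e1|) * (s / β))) (w + t • e2) ∂gam =
          ENNReal.ofReal ((D + 1 + |w ⬝ᵥ e1|) * (s / β)) := by
        have : ∀ t : ℝ, {y : ι → ℝ | |cR - α * (y ⬝ᵥ e1)| ≤ s}.indicator
            (fun y => ENNReal.ofReal ((D + 1 + |y ⬝ᵥ e1|) * (s / β))) (w + t • e2) =
            ENNReal.ofReal ((D + 1 + |w ⬝ᵥ e1|) * (s / β)) := by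
          intro t
          rw [Set.indicator_of_mem]
          · rw [hy1]
          · simp only [Set.mem_ofPred_eq, hy1]; exact hw1
        simp only [this, lintegral_const, measure_univ, mul_one]
      rw [hR]
      have hL := g1 (cI - γ * (w ⬝ᵥ e1)) hβ hs (by positivity : 0 ≤ D + |w ⬝ᵥ e1| + 1)
        (fun x => D + |w ⬝ᵥ e1| + |x|) (by fun_prop)
        (fun x => weight_bound (by positivity) x)
      have : ENNReal.ofReal ((D + |w ⬝ᵥ e1| + 1) * s / β) =
          ENNReal.ofReal ((D + 1 + |w ⬝ᵥ e1|) * (s / β)) := by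
        congr 1; ring
      rw [← this]
      refine le_trans (lintegral_mono fun t => ?_) hL
      by_cases ht : t ∈ {x : ℝ | |cI - γ * (w ⬝ᵥ e1) - β * x| ≤ s}
      · rw [Set.indicator_of_mem ht]
        refine (Set.indicator_le_self _ _ _).trans ?_
        rw [hy1, hy2]
      · rw [Set.indicator_of_notMem]
        · exact zero_le
        · rintro ⟨_, h3⟩
          apply ht
          simp only [Set.mem_ofPred_eq, hy1, hy2] at h3 ⊢
          rwa [sub_sub]
    · have hz : ∀ t : ℝ, ({y : ι → ℝ | |cR - α * (y ⬝ᵥ e1)| ≤ s} ∩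
          {y : ι → ℝ | |cI - (γ * (y ⬝ᵥ e1) + β * (y ⬝ᵥ e2))| ≤ s}).indicator
          (fun y => ENNReal.ofReal (D + |y ⬝ᵥ e1| + |y ⬝ᵥ e2|)) (w + t • e2) = 0 := by
        intro t
        rw [Set.indicator_of_notMem]
        rintro ⟨h3, _⟩
        apply hw1
        simpa only [Set.mem_ofPred_eq, hy1] using h3
      simp only [hz, lintegral_zero]
      exact zero_le
  refine step1.trans ?_
  have step2 : ∫⁻ y, {y : ι → ℝ | |cR - α * (y ⬝ᵥ e1)| ≤ s}.indicator
        (fun y => ENNReal.ofReal ((D + 1 + |y ⬝ᵥ e1|) * (s / β))) y ∂(mu1 ι) ≤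
      ∫⁻ _, ENNReal.ofReal ((D + 2) * s / α * (s / β)) ∂(mu1 ι) := by
    apply row_le k e1 e1' _ _ (hm1.indicator hS1) measurable_const
    intro w hw
    have hw' : w ⬝ᵥ e1 = 0 := hw
    have hy1 : ∀ t : ℝ, (w + t • e1) ⬝ᵥ e1 = t := by
      intro t
      rw [lin_row _ e1 w e1 t rfl, h1, hw']; ring
    have hL := g1 cR hα hs (by positivity : 0 ≤ (D + 2) * (s / β))
        (fun x => (D + 1 + |x|) * (s / β)) (by fun_prop)
        (fun x => by
          have h3 := weight_bound (by positivity : 0 ≤ D + 1) x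
          have h4 : 0 ≤ s / β := by positivity
          calc (D + 1 + |x|) * (s / β) * Real.exp (-(x ^ 2) / 2)
              = ((D + 1 + |x|) * Real.exp (-(x ^ 2) / 2)) * (s / β) := by ring
            _ ≤ (D + 1 + 1) * (s / β) := mul_le_mul_of_nonneg_right h3 h4
            _ = (D + 2) * (s / β) := by ring)
    rw [lintegral_const, measure_univ, mul_one]
    have : ENNReal.ofReal ((D + 2) * (s / β) * s / α) =
        ENNReal.ofReal ((D + 2) * s / α * (s / β)) := by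
      congr 1; ring
    rw [← this]
    refine le_trans (lintegral_mono fun t => ?_) hL
    by_cases ht : t ∈ {x : ℝ | |cR - α * x| ≤ s}
    · rw [Set.indicator_of_mem ht]
      refine (Set.indicator_le_self _ _ _).trans ?_
      rw [hy1]
    · rw [Set.indicator_of_notMem]
      · exact zero_le
      · intro h3
        apply ht
        simpa only [Set.mem_ofPred_eq, hy1] using h3
  refine step2.trans ?_
  rw [lintegral_const, measure_univ, mul_one]


theorem one_dir (k : ι) (a : ι → ℝ) (c : ℝ) {s : ℝ} (hs : 0 ≤ s) (ha : 1 / 2 ≤ a ⬝ᵥ a) :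
    ∫⁻ y, {y : ι → ℝ | |c - y ⬝ᵥ a| ≤ s}.indicator 1 y ∂(mu1 ι) ≤ ENNReal.ofReal (2 * s) := by
  set α := √(a ⬝ᵥ a) with hα
  have hα2 : α ^ 2 = a ⬝ᵥ a := Real.sq_sqrt (by linarith)
  have hαpos : 0 < α := Real.sqrt_pos.mpr (by linarith)
  have hα1 : 1 / 2 ≤ α := by nlinarith
  set e : ι → ℝ := α⁻¹ • a with he
  have hee : e ⬝ᵥ e = 1 := by
    rw [he, smul_dotProduct, dotProduct_smul, smul_eq_mul, smul_eq_mul, ← hα2]
    field_simp
  have hae : ∀ y : ι → ℝ, y ⬝ᵥ a = α * (y ⬝ᵥ e) := by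
    intro y
    rw [he, dotProduct_smul, smul_eq_mul]
    field_simp
  have e' : ∑ i, e i ^ 2 = 1 := by
    rw [← hee]; unfold dotProduct; exact Finset.sum_congr rfl fun i _ => by ring
  have hS : MeasurableSet {y : ι → ℝ | |c - y ⬝ᵥ a| ≤ s} :=
    (isClosed_le (by fun_prop) continuous_const).measurableSet
  have step : ∫⁻ y, {y : ι → ℝ | |c - y ⬝ᵥ a| ≤ s}.indicator 1 y ∂(mu1 ι) ≤
      ∫⁻ _, ENNReal.ofReal (2 * s) ∂(mu1 ι) := by
    apply row_le k e e' _ _ (measurable_one.indicator hS) measurable_const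
    intro w hw
    have hw' : w ⬝ᵥ e = 0 := hw
    have hy1 : ∀ t : ℝ, (w + t • e) ⬝ᵥ a = α * t := by
      intro t
      rw [hae, lin_row _ e w e t rfl, hee, hw']; ring
    rw [lintegral_const, measure_univ, mul_one]
    have hL := g1 c hαpos hs zero_le_one (fun _ => 1) measurable_const
      (fun x => by
        rw [one_mul]
        apply Real.exp_le_one_iff.mpr
        have := sq_nonneg x
        linarith)
    have h5 : ENNReal.ofReal (1 * s / α) ≤ ENNReal.ofReal (2 * s) := by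
      apply ENNReal.ofReal_le_ofReal
      rw [div_le_iff₀ hαpos]
      nlinarith
    refine le_trans (le_trans (lintegral_mono fun t => ?_) hL) h5
    by_cases ht : t ∈ {x : ℝ | |c - α * x| ≤ s}
    · rw [Set.indicator_of_mem ht]
      refine (Set.indicator_le_self _ _ _).trans ?_
      simp
    · rw [Set.indicator_of_notMem]
      · exact zero_le
      · intro h3
        apply ht
        simpa only [Set.mem_ofPred_eq, hy1] using h3
  refine step.trans ?_
  rw [lintegral_const, measure_univ, mul_one]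

theorem c_bound (k : ι) (a b : ι → ℝ) :
    (a k • b - b k • a) ⬝ᵥ (a k • b - b k • a) ≤ (a ⬝ᵥ a) * (b ⬝ᵥ b) - (a ⬝ᵥ b) ^ 2 := by
  have hsplit : ∀ x y : ι → ℝ, x ⬝ᵥ y = x k * y k + ∑ i ∈ Finset.univ.erase k, x i * y i := by
    intro x y
    unfold dotProduct
    exact (Finset.add_sum_erase Finset.univ (fun i => x i * y i) (Finset.mem_univ k)).symm
  have hCS := Finset.sum_mul_sq_le_sq_mul_sq (Finset.univ.erase k) a b
  have haa : ∑ i ∈ Finset.univ.erase k, a i ^ 2 = ∑ i ∈ Finset.univ.erase k, a i * a i :=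
    Finset.sum_congr rfl fun i _ => by ring
  have hbb : ∑ i ∈ Finset.univ.erase k, b i ^ 2 = ∑ i ∈ Finset.univ.erase k, b i * b i :=
    Finset.sum_congr rfl fun i _ => by ring
  rw [haa, hbb] at hCS
  have hexp : (a k • b - b k • a) ⬝ᵥ (a k • b - b k • a) =
      a k ^ 2 * (b ⬝ᵥ b) - 2 * (a k * b k) * (a ⬝ᵥ b) + b k ^ 2 * (a ⬝ᵥ a) := by
    simp only [sub_dotProduct, dotProduct_sub, smul_dotProduct, dotProduct_smul, smul_eq_mul,
      dotProduct_comm b a]
    ring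
  rw [hexp, hsplit a a, hsplit b b, hsplit a b]
  nlinarith [hCS]

theorem row_main (k : ι) (a b : ι → ℝ) (hab : a ⬝ᵥ a + b ⬝ᵥ b = 1) (cR cI : ℝ) {s w D : ℝ}
    (hs : 0 ≤ s) (hw : 0 < w) (hD : 0 ≤ D)
    (H : ∀ y : ι → ℝ, (cR - y ⬝ᵥ a) ^ 2 + (cI - y ⬝ᵥ b) ^ 2 ≤ s ^ 2 →
      w ≤ s + D * √((a ⬝ᵥ a) * (b ⬝ᵥ b) - (a ⬝ᵥ b) ^ 2) + |y ⬝ᵥ (a k • b - b k • a)|) :
    ∫⁻ y, {y : ι → ℝ | (cR - y ⬝ᵥ a) ^ 2 + (cI - y ⬝ᵥ b) ^ 2 ≤ s ^ 2}.indicator 1 y ∂(mu1 ι) ≤
      ENNReal.ofReal ((2 * D + 4) * s ^ 2 / w) := by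
  have hevR : ∀ y : ι → ℝ, (cR - y ⬝ᵥ a) ^ 2 + (cI - y ⬝ᵥ b) ^ 2 ≤ s ^ 2 →
      |cR - y ⬝ᵥ a| ≤ s := fun y hy =>
    abs_le_of_sq_le_sq (by nlinarith [sq_nonneg (cI - y ⬝ᵥ b)]) hs
  have hevI : ∀ y : ι → ℝ, (cR - y ⬝ᵥ a) ^ 2 + (cI - y ⬝ᵥ b) ^ 2 ≤ s ^ 2 →
      |cI - y ⬝ᵥ b| ≤ s := fun y hy =>
    abs_le_of_sq_le_sq (by nlinarith [sq_nonneg (cR - y ⬝ᵥ a)]) hs
  rcases lt_or_ge w (2 * s) with hws | hws
  · -- large `s`
    have h4 : ENNReal.ofReal (2 * s) ≤ ENNReal.ofReal ((2 * D + 4) * s ^ 2 / w) := by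
      apply ENNReal.ofReal_le_ofReal
      rw [le_div_iff₀ hw]
      nlinarith [mul_nonneg hD (sq_nonneg s)]
    have h5 : 1 / 2 ≤ a ⬝ᵥ a ∨ 1 / 2 ≤ b ⬝ᵥ b := by
      by_contra h6
      push Not at h6
      linarith [h6.1, h6.2]
    rcases h5 with h5 | h5
    · refine le_trans (le_trans (lintegral_mono fun y => ?_) (one_dir k a cR hs h5)) h4
      exact Set.indicator_le_indicator_of_subset (fun y hy => hevR y hy) (fun _ => zero_le) y
    · refine le_trans (le_trans (lintegral_mono fun y => ?_) (one_dir k b cI hs h5)) h4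
      exact Set.indicator_le_indicator_of_subset (fun y hy => hevI y hy) (fun _ => zero_le) y
  · have hΔ := c_bound k a b
    set Δ := (a ⬝ᵥ a) * (b ⬝ᵥ b) - (a ⬝ᵥ b) ^ 2 with hΔdef
    set c := a k • b - b k • a with hc
    have hcc : 0 ≤ c ⬝ᵥ c := Finset.sum_nonneg fun i _ => mul_self_nonneg _
    have hΔ0 : 0 ≤ Δ := hcc.trans hΔ
    rcases hΔ0.eq_or_lt with h0 | hpos
    · -- degenerate case
      have hc0 : c = 0 := by
        have h1 : c ⬝ᵥ c = 0 := le_antisymm (by linarith) hcc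
        exact dotProduct_self_eq_zero.mp h1
      have hempty : ∀ y : ι → ℝ, {y : ι → ℝ | (cR - y ⬝ᵥ a) ^ 2 + (cI - y ⬝ᵥ b) ^ 2 ≤
          s ^ 2}.indicator (1 : (ι → ℝ) → ℝ≥0∞) y = 0 := by
        intro y
        rw [Set.indicator_of_notMem]
        intro hy
        have h1 := H y hy
        rw [hc0, ← h0] at h1
        simp at h1
        linarith
      simp only [hempty, lintegral_zero]
      exact zero_le
    · set r := √Δ with hr
      have hr2 : r ^ 2 = Δ := Real.sq_sqrt hΔ0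
      have hrpos : 0 < r := Real.sqrt_pos.mpr hpos
      have haa : 0 < a ⬝ᵥ a := by
        have h1 : 0 ≤ a ⬝ᵥ a := Finset.sum_nonneg fun i _ => mul_self_nonneg _
        rcases h1.eq_or_lt with h2 | h2
        · exfalso
          rw [← h2] at hΔdef
          nlinarith [sq_nonneg (a ⬝ᵥ b)]
        · exact h2
      set α := √(a ⬝ᵥ a) with hα
      have hα2 : α ^ 2 = a ⬝ᵥ a := Real.sq_sqrt haa.le
      have hαpos : 0 < α := Real.sqrt_pos.mpr haa
      set b' : ι → ℝ := b - ((a ⬝ᵥ b) / (a ⬝ᵥ a)) • a with hb'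
      have hbb' : b' ⬝ᵥ b' = Δ / (a ⬝ᵥ a) := by
        simp only [hb', sub_dotProduct, dotProduct_sub, smul_dotProduct, dotProduct_smul,
          smul_eq_mul, dotProduct_comm b a, hΔdef]
        field_simp
        ring
      have hab' : a ⬝ᵥ b' = 0 := by
        simp only [hb', dotProduct_sub, dotProduct_smul, smul_eq_mul]
        field_simp
        ring
      have hbpos : 0 < b' ⬝ᵥ b' := by rw [hbb']; positivity
      set β := √(b' ⬝ᵥ b') with hβ
      have hβ2 : β ^ 2 = b' ⬝ᵥ b' := Real.sq_sqrt hbpos.le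
      have hβpos : 0 < β := Real.sqrt_pos.mpr hbpos
      have hαβ : α * β = r := by
        have h1 : (α * β) ^ 2 = r ^ 2 := by
          rw [mul_pow, hα2, hβ2, hbb', hr2]
          field_simp
        exact (pow_left_inj₀ (by positivity) hrpos.le two_ne_zero).mp h1
      set e1 : ι → ℝ := α⁻¹ • a with he1
      set e2 : ι → ℝ := β⁻¹ • b' with he2
      set γ := (a ⬝ᵥ b) / α with hγ
      have h11 : e1 ⬝ᵥ e1 = 1 := by
        rw [he1, smul_dotProduct, dotProduct_smul, smul_eq_mul, smul_eq_mul, ← hα2]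
        field_simp
      have h22 : e2 ⬝ᵥ e2 = 1 := by
        rw [he2, smul_dotProduct, dotProduct_smul, smul_eq_mul, smul_eq_mul, ← hβ2]
        field_simp
      have h12 : e1 ⬝ᵥ e2 = 0 := by
        rw [he1, he2, smul_dotProduct, dotProduct_smul, hab']
        simp
      have ha1 : a = α • e1 := by
        rw [he1, smul_smul, mul_inv_cancel₀ hαpos.ne', one_smul]
      have hb1 : b = γ • e1 + β • e2 := by
        rw [he1, he2, smul_smul, smul_smul, mul_inv_cancel₀ hβpos.ne', one_smul, hb', hγ]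
        have : a ⬝ᵥ b / α * α⁻¹ = (a ⬝ᵥ b) / (a ⬝ᵥ a) := by
          rw [← hα2]; field_simp
        rw [this]
        abel
      have hya : ∀ y : ι → ℝ, y ⬝ᵥ a = α * (y ⬝ᵥ e1) := by
        intro y
        conv_lhs => rw [ha1]
        rw [dotProduct_smul, smul_eq_mul]
      have hyb : ∀ y : ι → ℝ, y ⬝ᵥ b = γ * (y ⬝ᵥ e1) + β * (y ⬝ᵥ e2) := by
        intro y
        conv_lhs => rw [hb1]
        rw [dotProduct_add, dotProduct_smul γ y e1, dotProduct_smul β y e2,
          smul_eq_mul, smul_eq_mul]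
      -- the vector `c`
      set p := a k * γ - b k * α with hp
      set q := a k * β with hq
      have hyc : ∀ y : ι → ℝ, y ⬝ᵥ c = p * (y ⬝ᵥ e1) + q * (y ⬝ᵥ e2) := by
        intro y
        rw [hc, dotProduct_sub, dotProduct_smul, dotProduct_smul, smul_eq_mul, smul_eq_mul,
          hya, hyb, hp, hq]
        ring
      have hpq : p ^ 2 + q ^ 2 ≤ r ^ 2 := by
        have h1 : c ⬝ᵥ c = p ^ 2 + q ^ 2 := by
          rw [hyc, dotProduct_comm c e1, dotProduct_comm c e2, hyc, hyc, h11, h22,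
            dotProduct_comm e2 e1, h12]
          ring
        rw [← h1, hr2]
        exact hΔ
      have hpr : |p| ≤ r := abs_le_of_sq_le_sq (by nlinarith [sq_nonneg q]) hrpos.le
      have hqr : |q| ≤ r := abs_le_of_sq_le_sq (by nlinarith [sq_nonneg p]) hrpos.le
      have hfin := two_step k e1 e2 h11 h22 h12 γ cR cI hαpos hβpos hs hD
      have hm : ENNReal.ofReal ((2 * D + 4) * s ^ 2 / w) =
          ENNReal.ofReal (2 * r / w) * ENNReal.ofReal ((D + 2) * s / α * (s / β)) := by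
        rw [← ENNReal.ofReal_mul (by positivity)]
        congr 1
        rw [← hαβ]
        field_simp
        ring
      rw [hm]
      refine le_trans ?_ (mul_le_mul_right hfin _)
      rw [← lintegral_const_mul']
      · apply lintegral_mono
        intro y
        by_cases hy : (cR - y ⬝ᵥ a) ^ 2 + (cI - y ⬝ᵥ b) ^ 2 ≤ s ^ 2
        · rw [Set.indicator_of_mem (show y ∈ {y : ι → ℝ | (cR - y ⬝ᵥ a) ^ 2 +
            (cI - y ⬝ᵥ b) ^ 2 ≤ s ^ 2} from hy)]
          simp only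
          rw [Set.indicator_of_mem]
          · rw [← ENNReal.ofReal_mul (by positivity), Pi.one_apply, ← ENNReal.ofReal_one]
            apply ENNReal.ofReal_le_ofReal
            have h1 := H y hy
            have h2 : |y ⬝ᵥ c| ≤ r * |y ⬝ᵥ e1| + r * |y ⬝ᵥ e2| := by
              rw [hyc]
              refine (abs_add_le _ _).trans ?_
              rw [abs_mul, abs_mul]
              have := abs_nonneg (y ⬝ᵥ e1)
              have := abs_nonneg (y ⬝ᵥ e2)
              gcongr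
            have h3 : w ≤ 2 * r * (D + |y ⬝ᵥ e1| + |y ⬝ᵥ e2|) := by
              have h6 : 2 * r * (D + |y ⬝ᵥ e1| + |y ⬝ᵥ e2|) =
                2 * (D * r + (r * |y ⬝ᵥ e1| + r * |y ⬝ᵥ e2|)) := by ring
              rw [h6]
              linarith
            rw [div_mul_eq_mul_div, le_div_iff₀ hw, one_mul]
            exact h3
          · constructor
            · simp only [Set.mem_ofPred_eq]
              rw [← hya]
              exact hevR y hy
            · simp only [Set.mem_ofPred_eq]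
              rw [← hyb]
              exact hevI y hy
        · rw [Set.indicator_of_notMem (show y ∉ {y : ι → ℝ | (cR - y ⬝ᵥ a) ^ 2 +
            (cI - y ⬝ᵥ b) ^ 2 ≤ s ^ 2} from hy)]
          exact zero_le
      · finiteness

end Pool.Agent.R860.CG
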